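import Mathlib

/-!
# The choice of the parameters
-/

namespace Pool.Agent.Run7.h546.AC

theorem asym (δ : ℝ) (hδ0 : 0 < δ) (C₀ : ℝ) (hC₀ : 0 ≤ C₀) :
    ∃ C : ℝ, 0 ≤ C ∧ ∃ T : ℕ, ∀ n : ℕ, 0 < n → C * (n : ℝ) ^ (-δ) < 1 →
      ∃ L : ℕ, T ≤ L ∧ 0 < L ∧ (∀ k : ℕ, (k : ℝ) ≤ (n : ℝ) ^ (1 - δ) → 4 * L * k < n) ∧
        2 * (5 + 4 * C₀) / L + 2 * n * (4 ^ T) ^ T / ((L + 1 - T : ℕ) : ℝ) ^ T ≤
          C * (n : ℝ) ^ (-δ) := by
  obtain ⟨T, hT⟩ := exists_nat_ge ((1 + δ) / δ)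
  have hTδ : 1 + δ ≤ δ * T := by
    rw [div_le_iff₀ hδ0] at hT
    linarith
  have hP : (0 : ℝ) ≤ 2 * (4 ^ T) ^ T * 16 ^ T := by positivity
  have hT0 : (0 : ℝ) ≤ T := Nat.cast_nonneg T
  refine ⟨32 * (5 + 4 * C₀) + 2 * (4 ^ T) ^ T * 16 ^ T + 16 * (T + 1), by positivity, T, ?_⟩
  intro n hn hC
  have hnR : (0 : ℝ) < n := by exact_mod_cast hn
  have hn1 : (1 : ℝ) ≤ n := by exact_mod_cast hn
  set x : ℝ := (n : ℝ) ^ δ with hx
  have hx0 : 0 < x := Real.rpow_pos_of_pos hnR δ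
  have hinv : (n : ℝ) ^ (-δ) = x⁻¹ := Real.rpow_neg hnR.le δ
  have hx16 : 16 * (T + 1) < x := by
    rw [hinv] at hC
    have h1 : 32 * (5 + 4 * C₀) + 2 * (4 ^ T) ^ T * 16 ^ T + 16 * (T + 1) < 1 * x := by
      rwa [← div_eq_mul_inv, div_lt_iff₀ hx0] at hC
    linarith
  have hL1 : ((⌊x / 8⌋₊ : ℕ) : ℝ) ≤ x / 8 := Nat.floor_le (by positivity)
  have hL2 : x / 8 < ⌊x / 8⌋₊ + 1 := Nat.lt_floor_add_one _
  set L : ℕ := ⌊x / 8⌋₊ with hL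
  have hTL : T ≤ L := by
    have h1 : (T : ℝ) < L + 1 := by linarith
    have h2 : T < L + 1 := by exact_mod_cast h1
    omega
  have hL0 : 0 < L := by
    have h1 : (1 : ℝ) < L + 1 := by linarith
    have h2 : 1 < L + 1 := by exact_mod_cast h1
    omega
  have hLR : (0 : ℝ) < L := by exact_mod_cast hL0
  refine ⟨L, hTL, hL0, ?_, ?_⟩
  · intro k hk
    have h1 : x * (n : ℝ) ^ (1 - δ) = n := by
      rw [hx, ← Real.rpow_add hnR, add_sub_cancel, Real.rpow_one]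
    have h2 : (4 * L * k : ℝ) ≤ n / 2 := by
      calc (4 * L * k : ℝ) ≤ 4 * (x / 8) * (n : ℝ) ^ (1 - δ) := by
            refine mul_le_mul (by linarith) hk (Nat.cast_nonneg k) (by positivity)
        _ = x * (n : ℝ) ^ (1 - δ) / 2 := by ring
        _ = n / 2 := by rw [h1]
    have h3 : ((4 * L * k : ℕ) : ℝ) < n := by
      push_cast
      linarith
    exact_mod_cast h3
  · have hL16 : x / 16 ≤ L := by linarith
    have hLT : x / 16 ≤ ((L + 1 - T : ℕ) : ℝ) := by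
      rw [Nat.cast_sub (by omega)]
      push_cast
      linarith
    have h1 : 2 * (5 + 4 * C₀) / L ≤ 32 * (5 + 4 * C₀) * x⁻¹ := by
      rw [div_le_iff₀ hLR]
      have h2 : 32 * (5 + 4 * C₀) * x⁻¹ * (x / 16) = 2 * (5 + 4 * C₀) := by
        field_simp
        ring
      calc 2 * (5 + 4 * C₀) = 32 * (5 + 4 * C₀) * x⁻¹ * (x / 16) := h2.symm
        _ ≤ 32 * (5 + 4 * C₀) * x⁻¹ * L := mul_le_mul_of_nonneg_left hL16 (by positivity)
    have h2 : 2 * n * (4 ^ T) ^ T / ((L + 1 - T : ℕ) : ℝ) ^ T ≤ 2 * (4 ^ T) ^ T * 16 ^ T * x⁻¹ := by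
      have h3 : (0 : ℝ) < x / 16 := by positivity
      have h4 : (x / 16) ^ T ≤ ((L + 1 - T : ℕ) : ℝ) ^ T := pow_le_pow_left₀ h3.le hLT T
      have h5 : 2 * n * (4 ^ T) ^ T / ((L + 1 - T : ℕ) : ℝ) ^ T ≤
          2 * n * (4 ^ T) ^ T / (x / 16) ^ T :=
        div_le_div_of_nonneg_left (by positivity) (by positivity) h4
      refine h5.trans ?_
      have h6 : (n : ℝ) * x ≤ x ^ T := by
        have h7 : x ^ T = (n : ℝ) ^ (δ * T) := by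
          rw [hx, ← Real.rpow_natCast, ← Real.rpow_mul hnR.le]
        have h8 : (n : ℝ) * x = (n : ℝ) ^ (1 + δ) := by
          rw [Real.rpow_add hnR, Real.rpow_one]
        rw [h7, h8]
        exact Real.rpow_le_rpow_of_exponent_le hn1 hTδ
      rw [div_pow, div_div_eq_mul_div, div_le_iff₀ (by positivity)]
      have h9 : 2 * (4 ^ T) ^ T * 16 ^ T * x⁻¹ * x ^ T =
          2 * (4 ^ T) ^ T * 16 ^ T * (x ^ T * x⁻¹) := by ring
      rw [h9]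
      have h10 : (n : ℝ) ≤ x ^ T * x⁻¹ := by
        rw [← div_eq_mul_inv, le_div_iff₀ hx0]
        exact h6
      have h11 : 2 * (n : ℝ) * (4 ^ T) ^ T * 16 ^ T = 2 * (4 ^ T) ^ T * 16 ^ T * n := by ring
      rw [h11]
      exact mul_le_mul_of_nonneg_left h10 (by positivity)
    rw [hinv]
    have h3 : 0 ≤ 16 * ((T : ℝ) + 1) * x⁻¹ := by positivity
    calc _ ≤ 32 * (5 + 4 * C₀) * x⁻¹ + 2 * (4 ^ T) ^ T * 16 ^ T * x⁻¹ := add_le_add h1 h2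
      _ ≤ 32 * (5 + 4 * C₀) * x⁻¹ + 2 * (4 ^ T) ^ T * 16 ^ T * x⁻¹ + 16 * ((T : ℝ) + 1) * x⁻¹ := by
          linarith
      _ = _ := by ring

end Pool.Agent.Run7.h546.AC
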