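import Mathlib
import Pool.Agent.TH170.CM.Group

/-!
# Counting odd sign functions which are determined outside some blocks together with the sums over
# the blocks
-/

namespace Pool.Agent.Run7.h546.AC

open Finset Pool.Agent.TH170.CM

theorem exists_transversal {X : Type*} [Fintype X] {c : X → X} (hcc : ∀ x, c (c x) = x)
    (hne : ∀ x, c x ≠ x) : ∃ T : Finset X, ∀ x, x ∈ T ↔ c x ∉ T := by
  classical
  let e := Fintype.equivFin X
  refine ⟨univ.filter (fun x => e x < e (c x)), fun x => ?_⟩
  simp only [mem_filter, mem_univ, true_and, hcc]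
  have h1 : e (c x) ≠ e x := fun h => hne x (e.injective h)
  constructor
  · intro h
    exact not_lt.2 h.le
  · intro h
    exact lt_of_le_of_ne (not_lt.1 h) (Ne.symm h1)

theorem card_transversal {X : Type*} [Fintype X] {c : X → X} (hcc : ∀ x, c (c x) = x)
    {T : Finset X} (hT : ∀ x, x ∈ T ↔ c x ∉ T) : Fintype.card X = 2 * T.card := by
  classical
  have hcinj : Function.Injective c := fun x y h => by rw [← hcc x, h, hcc]
  have h1 : (univ : Finset X) = T ∪ T.image c := by
    ext x
    simp only [mem_univ, mem_union, mem_image, true_iff]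
    by_cases hx : x ∈ T
    · exact Or.inl hx
    · refine Or.inr ⟨c x, ?_, hcc x⟩
      rw [hT, hcc]
      exact hx
  have h2 : Disjoint T (T.image c) := by
    rw [Finset.disjoint_left]
    intro x hx hx2
    obtain ⟨y, hy, rfl⟩ := mem_image.1 hx2
    exact (hT y).1 hy hx
  rw [← Finset.card_univ, h1, card_union_of_disjoint h2, card_image_of_injective _ hcinj]
  ring

theorem finite_sgn {X : Type*} [Finite X] {A : Set (X → ℤ)}
    (hA : ∀ u ∈ A, ∀ x, u x = 1 ∨ u x = -1) : A.Finite := by
  refine Set.Finite.subset (Set.Finite.pi' (fun _ : X => (Set.finite_insert.2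
    (Set.finite_singleton (-1 : ℤ)) : ({1, -1} : Set ℤ).Finite))) ?_
  intro u hu g
  rcases hA u hu g with h | h
  · exact Or.inl h
  · exact Or.inr h

theorem ncard_odd_le {X J H : Type*} [Fintype X] [Fintype J] [Fintype H] {c : X → X}
    (hcc : ∀ x, c (c x) = x) (hne : ∀ x, c x ≠ x) {g : ℕ} (hX : Fintype.card X = 2 * g)
    (κ : J × H → X) (hinj : Function.Injective κ) (hsep : ∀ p q, κ p ≠ c (κ q))
    (A : Set (X → ℤ)) (hA : ∀ u ∈ A, (∀ x, u x = 1 ∨ u x = -1) ∧ ∀ x, u (c x) = - u x)
    (hdet : ∀ u ∈ A, ∀ u' ∈ A, (∀ x, (∀ p, x ≠ κ p ∧ x ≠ c (κ p)) → u x = u' x) →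
      ∀ j, ∑ y, u (κ (j, y)) = ∑ y, u' (κ (j, y))) :
    Fintype.card J * Fintype.card H ≤ g ∧
    A.ncard ≤ ((Fintype.card H).choose (Fintype.card H / 2)) ^ Fintype.card J *
      2 ^ (g - Fintype.card J * Fintype.card H) := by
  classical
  obtain ⟨T, hT⟩ := exists_transversal hcc hne
  have hTc : T.card = g := by
    have := card_transversal hcc hT
    omega
  let W : Finset X := T.filter (fun x => ∀ p, x ≠ κ p ∧ x ≠ c (κ p))
  have hW : W.card + Fintype.card J * Fintype.card H ≤ g := by
    have h1 : Fintype.card J * Fintype.card H ≤ (T \ W).card := by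
      rw [← Fintype.card_prod, ← Finset.card_univ]
      refine Finset.card_le_card_of_injOn (fun p => if κ p ∈ T then κ p else c (κ p)) ?_ ?_
      · intro p _
        rw [mem_coe, mem_sdiff]
        simp only
        split_ifs with h
        · refine ⟨h, fun h2 => ?_⟩
          exact ((mem_filter.1 h2).2 p).1 rfl
        · refine ⟨?_, fun h2 => ?_⟩
          · rw [hT, hcc]
            exact h
          · exact ((mem_filter.1 h2).2 p).2 rfl
      · intro p _ q _ h
        simp only at h
        split_ifs at h with h1 h2 h2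
        · exact hinj h
        · exact absurd h (hsep p q)
        · exact absurd h.symm (hsep q p)
        · have h3 := congrArg c h
          rw [hcc, hcc] at h3
          exact hinj h3
    have h2 : (T \ W).card + W.card = T.card :=
      Finset.card_sdiff_add_card_eq_card (Finset.filter_subset _ _)
    omega
  refine ⟨by omega, ?_⟩
  have hfin : A.Finite := finite_sgn (fun u hu => (hA u hu).1)
  let S : Finset (X → ℤ) := hfin.toFinset
  have hS : ∀ u, u ∈ S ↔ u ∈ A := fun u => hfin.mem_toFinset
  rw [Set.ncard_eq_toFinset_card A hfin]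
  let ρ : (X → ℤ) → (W → Bool) := fun u x => decide (u x = 1)
  have hρ : ∀ u ∈ A, ∀ u' ∈ A, ρ u = ρ u' → ∀ x, (∀ p, x ≠ κ p ∧ x ≠ c (κ p)) → u x = u' x := by
    intro u hu u' hu' h
    have h1 : ∀ x ∈ W, u x = u' x := by
      intro x hx
      have h2 : (u x = 1) ↔ (u' x = 1) := decide_eq_decide.1 (congrFun h ⟨x, hx⟩)
      rcases (hA u hu).1 x with h3 | h3 <;> rcases (hA u' hu').1 x with h4 | h4
      · rw [h3, h4]
      · have := h2.1 h3
        omega
      · have := h2.2 h4
        omega
      · rw [h3, h4]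
    intro x hx
    by_cases hxT : x ∈ T
    · exact h1 x (mem_filter.2 ⟨hxT, hx⟩)
    · have h3 : c x ∈ W := by
        refine mem_filter.2 ⟨?_, fun p => ⟨fun h4 => ?_, fun h4 => ?_⟩⟩
        · rw [hT, hcc]
          exact hxT
        · exact (hx p).2 (by rw [← h4, hcc])
        · apply (hx p).1
          have := congrArg c h4
          rwa [hcc, hcc] at this
      have h4 := h1 _ h3
      rw [(hA u hu).2, (hA u' hu').2] at h4
      exact neg_injective h4
  have hfib : ∀ w ∈ (univ : Finset (W → Bool)), (S.filter (fun u => ρ u = w)).card ≤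
      ((Fintype.card H).choose (Fintype.card H / 2)) ^ Fintype.card J := by
    intro w _
    rcases (S.filter (fun u => ρ u = w)).eq_empty_or_nonempty with h2 | ⟨u0, hu0⟩
    · rw [h2, Finset.card_empty]
      exact Nat.zero_le _
    rw [Finset.mem_filter, hS] at hu0
    let vec : (X → ℤ) → J → H → Bool := fun u j y => decide (u (κ (j, y)) = 1)
    let P : Finset (J → H → Bool) := Fintype.piFinset (fun j =>
      univ.filter (fun b : H → Bool => cnt b = cnt (vec u0 j)))
    have hP : (S.filter (fun u => ρ u = w)).card ≤ P.card := by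
      refine Finset.card_le_card_of_injOn vec ?_ ?_
      · intro u hu
        rw [mem_coe, mem_filter, hS] at hu
        rw [mem_coe, Fintype.mem_piFinset]
        intro j
        rw [mem_filter]
        refine ⟨mem_univ _, ?_⟩
        have h3 := hdet u hu.1 u0 hu0.1 (hρ u hu.1 u0 hu0.1 (hu.2.trans hu0.2.symm)) j
        rw [sum_sign (fun y => u (κ (j, y))) (fun y => (hA u hu.1).1 _),
          sum_sign (fun y => u0 (κ (j, y))) (fun y => (hA u0 hu0.1).1 _)] at h3
        change 2 * (cnt (vec u j) : ℤ) - _ = 2 * (cnt (vec u0 j) : ℤ) - _ at h3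
        omega
      · intro u hu u' hu' h
        rw [mem_coe, mem_filter, hS] at hu hu'
        have h3 := hρ u hu.1 u' hu'.1 (hu.2.trans hu'.2.symm)
        have h4 : ∀ p, u (κ p) = u' (κ p) := by
          rintro ⟨j, y⟩
          have h2 : (u (κ (j, y)) = 1) ↔ (u' (κ (j, y)) = 1) :=
            decide_eq_decide.1 (congrFun (congrFun h j) y)
          rcases (hA u hu.1).1 (κ (j, y)) with h3 | h3 <;>
            rcases (hA u' hu'.1).1 (κ (j, y)) with h4 | h4
          · rw [h3, h4]
          · have := h2.1 h3
            omega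
          · have := h2.2 h4
            omega
          · rw [h3, h4]
        funext x
        by_cases hx : ∀ p, x ≠ κ p ∧ x ≠ c (κ p)
        · exact h3 x hx
        · push Not at hx
          obtain ⟨p, hp⟩ := hx
          by_cases hxp : x = κ p
          · rw [hxp]
            exact h4 p
          · rw [hp hxp, (hA u hu.1).2, (hA u' hu'.1).2, h4 p]
    refine hP.trans ?_
    rw [Fintype.card_piFinset]
    refine (Finset.prod_le_prod' fun j _ => card_cnt_eq _).trans ?_
    rw [Finset.prod_const, Finset.card_univ]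
  have h2 : S.card ≤ ((Fintype.card H).choose (Fintype.card H / 2)) ^ Fintype.card J *
      (univ : Finset (W → Bool)).card :=
    Finset.card_le_mul_card_image_of_maps_to (f := ρ) (fun u _ => Finset.mem_univ _) _ hfib
  refine h2.trans (Nat.mul_le_mul_left _ ?_)
  rw [Finset.card_univ, Fintype.card_fun, Fintype.card_bool, Fintype.card_coe]
  exact Nat.pow_le_pow_right (by norm_num) (by omega)

/-- The number of all odd sign functions. -/
theorem ncard_sgn_le {X : Type*} [Fintype X] {c : X → X}
    (hcc : ∀ x, c (c x) = x) (hne : ∀ x, c x ≠ x) {g : ℕ} (hX : Fintype.card X = 2 * g)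
    (A : Set (X → ℤ)) (hA : ∀ u ∈ A, (∀ x, u x = 1 ∨ u x = -1) ∧ ∀ x, u (c x) = - u x) :
    A.ncard ≤ 2 ^ g := by
  have h1 := (ncard_odd_le (J := Empty) (H := Empty) hcc hne hX (fun p => p.1.elim)
    (fun p => p.1.elim) (fun p => p.1.elim) A hA (fun _ _ _ _ _ j => j.elim)).2
  simpa using h1

end Pool.Agent.Run7.h546.AC
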