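import Mathlib

/-!
# The support of a function on a finite abelian group and the differences of its spectrum
-/

namespace Pool.Agent.Run7.h546.AC

open Finset

variable {G : Type*} [CommGroup G] [Fintype G]

instance finChars : Finite (G →* ℂˣ) := by
  apply Nat.finite_of_card_ne_zero
  rw [CommGroup.card_monoidHom_of_hasEnoughRootsOfUnity G ℂ]
  exact Nat.card_pos.ne'

noncomputable instance fintypeChars : Fintype (G →* ℂˣ) := Fintype.ofFinite _

theorem card_chars : Fintype.card (G →* ℂˣ) = Fintype.card G := by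
  rw [← Nat.card_eq_fintype_card, CommGroup.card_monoidHom_of_hasEnoughRootsOfUnity G ℂ,
    Nat.card_eq_fintype_card]

open Classical in
theorem sum_chars_apply (g : G) :
    ∑ χ : G →* ℂˣ, ((χ g : ℂˣ) : ℂ) = if g = 1 then (Fintype.card G : ℂ) else 0 := by
  split_ifs with h
  · subst h
    simp [card_chars]
  · obtain ⟨χ, hχ⟩ := CommGroup.exists_apply_ne_one_of_hasEnoughRootsOfUnity G ℂ h
    have h1 : ((χ g : ℂˣ) : ℂ) * ∑ ψ : G →* ℂˣ, ((ψ g : ℂˣ) : ℂ) =
        ∑ ψ : G →* ℂˣ, ((ψ g : ℂˣ) : ℂ) := by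
      rw [Finset.mul_sum]
      exact Fintype.sum_bijective _ (Group.mulLeft_bijective χ) _ _ fun ψ => by simp
    have h2 : (((χ g : ℂˣ) : ℂ) - 1) * ∑ ψ : G →* ℂˣ, ((ψ g : ℂˣ) : ℂ) = 0 := by
      rw [sub_mul, h1, one_mul, sub_self]
    refine (mul_eq_zero.1 h2).resolve_left fun h3 => hχ ?_
    exact Units.val_eq_one.1 (sub_eq_zero.1 h3)

/-- The Fourier coefficients. -/
noncomputable def hat (f : G → ℂ) (χ : G →* ℂˣ) : ℂ := ∑ g, f g * (χ g : ℂ)

theorem hat_mul (f f' : G → ℂ) (ψ : G →* ℂˣ) :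
    (Fintype.card G : ℂ) * hat (fun g => f g * f' g) ψ = ∑ χ, hat f (χ * ψ) * hat f' χ⁻¹ := by
  classical
  have h1 : ∀ χ : G →* ℂˣ, hat f (χ * ψ) * hat f' χ⁻¹ =
      ∑ g, ∑ h, f g * (ψ g : ℂ) * f' h * ((χ (g * h⁻¹) : ℂˣ) : ℂ) := by
    intro χ
    rw [hat, hat, Finset.sum_mul_sum]
    refine Finset.sum_congr rfl fun g _ => Finset.sum_congr rfl fun h _ => ?_
    rw [MonoidHom.mul_apply, MonoidHom.inv_apply, map_mul, map_inv, Units.val_mul, Units.val_mul]
    ring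
  rw [Finset.sum_congr rfl fun χ _ => h1 χ, Finset.sum_comm, hat, Finset.mul_sum]
  refine Finset.sum_congr rfl fun g _ => ?_
  rw [Finset.sum_comm]
  have h2 : ∀ h : G, ∑ χ : G →* ℂˣ, f g * (ψ g : ℂ) * f' h * ((χ (g * h⁻¹) : ℂˣ) : ℂ) =
      if h = g then f g * (ψ g : ℂ) * f' h * (Fintype.card G : ℂ) else 0 := by
    intro h
    rw [← Finset.mul_sum, sum_chars_apply]
    by_cases hg : h = g
    · rw [if_pos hg, if_pos (by rw [hg, mul_inv_cancel])]
    · rw [if_neg hg, if_neg (fun h3 => hg (mul_inv_eq_one.1 h3).symm), mul_zero]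
  rw [Finset.sum_congr rfl fun h _ => h2 h, Finset.sum_ite_eq' Finset.univ g,
    if_pos (Finset.mem_univ _)]
  ring

theorem norm_char (χ : G →* ℂˣ) (g : G) : ‖((χ g : ℂˣ) : ℂ)‖ = 1 := by
  refine Complex.norm_eq_one_of_pow_eq_one (n := Fintype.card G) ?_ Fintype.card_ne_zero
  rw [← Units.val_pow_eq_pow_val, ← map_pow, pow_card_eq_one, map_one, Units.val_one]

theorem hat_inv (f : G → ℝ) (χ : G →* ℂˣ) :
    hat (fun g => (f g : ℂ)) χ⁻¹ = (starRingEnd ℂ) (hat (fun g => (f g : ℂ)) χ) := by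
  rw [hat, hat, map_sum]
  refine Finset.sum_congr rfl fun g _ => ?_
  rw [map_mul, Complex.conj_ofReal]
  congr 1
  rw [MonoidHom.inv_apply, Units.val_inv_eq_inv_val, Complex.inv_def, Complex.normSq_eq_norm_sq,
    norm_char]
  simp

theorem parseval (f : G → ℝ) :
    ∑ χ, ‖hat (fun g => (f g : ℂ)) χ‖ ^ 2 = Fintype.card G * ∑ g, f g ^ 2 := by
  have h1 := hat_mul (fun g => (f g : ℂ)) (fun g => (f g : ℂ)) 1
  have h2 : ((∑ χ, ‖hat (fun g => (f g : ℂ)) χ‖ ^ 2 : ℝ) : ℂ) =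
      ((Fintype.card G * ∑ g, f g ^ 2 : ℝ) : ℂ) := by
    rw [Complex.ofReal_mul, Complex.ofReal_natCast, Complex.ofReal_sum, Complex.ofReal_sum]
    have h3 : ∑ g, ((f g ^ 2 : ℝ) : ℂ) = hat (fun g => (f g : ℂ) * (f g : ℂ)) 1 := by
      rw [hat]
      refine Finset.sum_congr rfl fun g _ => ?_
      rw [MonoidHom.one_apply, Units.val_one, mul_one, Complex.ofReal_pow, sq]
    rw [h3, h1]
    refine Finset.sum_congr rfl fun χ _ => ?_
    have h5 : χ * 1 = χ := mul_one χ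
    rw [h5, hat_inv, Complex.mul_conj, Complex.normSq_eq_norm_sq]
  exact_mod_cast h2

theorem norm_hat_sq_le (f : G → ℝ) (ψ : G →* ℂˣ) :
    Fintype.card G * ‖hat (fun g => ((f g ^ 2 : ℝ) : ℂ)) ψ‖ ≤
      ∑ χ, ‖hat (fun g => (f g : ℂ)) (χ * ψ)‖ * ‖hat (fun g => (f g : ℂ)) χ‖ := by
  have h1 := hat_mul (fun g => (f g : ℂ)) (fun g => (f g : ℂ)) ψ
  have h2 : hat (fun g => ((f g ^ 2 : ℝ) : ℂ)) ψ = hat (fun g => (f g : ℂ) * (f g : ℂ)) ψ := by
    congr 1
    funext g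
    rw [Complex.ofReal_pow, sq]
  have h3 : (Fintype.card G : ℝ) * ‖hat (fun g => ((f g ^ 2 : ℝ) : ℂ)) ψ‖ =
      ‖(Fintype.card G : ℂ) * hat (fun g => (f g : ℂ) * (f g : ℂ)) ψ‖ := by
    rw [h2, norm_mul, Complex.norm_natCast]
  rw [h3, h1]
  refine (norm_sum_le _ _).trans (Finset.sum_le_sum fun χ _ => ?_)
  rw [norm_mul, hat_inv, Complex.norm_conj]

/-- **The support of a function is large if the differences of its spectrum have few
representations.** -/
theorem card_le_of_spectrum (r : G → ℤ) (hr : r ≠ 0) (Z : Set (G →* ℂˣ))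
    (hZ : ∀ χ, ∑ g, (r g : ℂ) * (χ g : ℂ) ≠ 0 → χ ∈ Z) (R : ℕ)
    (hR : ∀ ψ : G →* ℂˣ, ψ ≠ 1 → {χ : G →* ℂˣ | χ ∈ Z ∧ χ * ψ ∈ Z}.ncard ≤ R) :
    Fintype.card G ≤ (1 + R) * {g | r g ≠ 0}.ncard := by
  classical
  let f : G → ℝ := fun g => (r g : ℝ)
  let a : (G →* ℂˣ) → ℝ := fun χ => ‖hat (fun g => (f g : ℂ)) χ‖
  have ha0 : ∀ χ, 0 ≤ a χ := fun χ => norm_nonneg _
  have haZ : ∀ χ, a χ ≠ 0 → χ ∈ Z := by
    intro χ h
    apply hZ
    intro h1
    apply h
    have h2 : hat (fun g => (f g : ℂ)) χ = 0 := by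
      rw [← h1, hat]
      refine Finset.sum_congr rfl fun g _ => ?_
      simp only [f]
      push_cast
      rfl
    simp only [a, h2, norm_zero]
  set n : ℝ := ((Fintype.card G : ℕ) : ℝ) with hn
  have hn0 : 0 < n := by
    rw [hn]
    exact_mod_cast Fintype.card_pos
  set P : ℝ := ∑ g, f g ^ 2 with hP
  set Q : ℝ := ∑ g, f g ^ 4 with hQ
  have hpar : ∑ χ, a χ ^ 2 = n * P := parseval f
  have hP0 : 0 < P := by
    have h1 : ∃ g, r g ≠ 0 := by
      by_contra h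
      push Not at h
      exact hr (funext h)
    obtain ⟨g, hg⟩ := h1
    refine lt_of_lt_of_le ?_ (Finset.single_le_sum (f := fun g => f g ^ 2)
      (fun g _ => sq_nonneg _) (Finset.mem_univ g))
    have h2 : f g ≠ 0 := Int.cast_ne_zero.2 hg
    positivity
  have hQ0 : 0 < Q := by
    have h1 : ∃ g, r g ≠ 0 := by
      by_contra h
      push Not at h
      exact hr (funext h)
    obtain ⟨g, hg⟩ := h1
    refine lt_of_lt_of_le ?_ (Finset.single_le_sum (f := fun g => f g ^ 4)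
      (fun g _ => by positivity) (Finset.mem_univ g))
    have h2 : f g ≠ 0 := Int.cast_ne_zero.2 hg
    positivity
  -- the fourth moment
  have h4 : n * Q = ∑ ψ, ‖hat (fun g => ((f g ^ 2 : ℝ) : ℂ)) ψ‖ ^ 2 := by
    rw [parseval (fun g => f g ^ 2)]
    congr 1
    refine Finset.sum_congr rfl fun g _ => ?_
    ring
  have hb : ∀ ψ : G →* ℂˣ, (n * ‖hat (fun g => ((f g ^ 2 : ℝ) : ℂ)) ψ‖) ^ 2 ≤
      (if ψ = 1 then (n * P) ^ 2 else 0) + R * ∑ χ, (a (χ * ψ)) ^ 2 * (a χ) ^ 2 := by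
    intro ψ
    have h1 := norm_hat_sq_le f ψ
    have h2 : (n * ‖hat (fun g => ((f g ^ 2 : ℝ) : ℂ)) ψ‖) ^ 2 ≤ (∑ χ, a (χ * ψ) * a χ) ^ 2 :=
      pow_le_pow_left₀ (by positivity) h1 2
    refine h2.trans ?_
    have hnn : 0 ≤ (R : ℝ) * ∑ χ, (a (χ * ψ)) ^ 2 * (a χ) ^ 2 := by positivity
    by_cases hψ : ψ = 1
    · rw [if_pos hψ, hψ]
      have h3 : ∑ χ, a (χ * 1) * a χ = n * P := by
        rw [← hpar]
        refine Finset.sum_congr rfl fun χ _ => ?_
        have h5 : χ * 1 = χ := mul_one χ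
        rw [h5, sq]
      rw [h3]
      rw [hψ] at hnn
      linarith
    · rw [if_neg hψ, zero_add]
      let D : Finset (G →* ℂˣ) := univ.filter (fun χ => χ ∈ Z ∧ χ * ψ ∈ Z)
      have hD : (D.card : ℝ) ≤ R := by
        have h3 := hR ψ hψ
        have h4 : {χ : G →* ℂˣ | χ ∈ Z ∧ χ * ψ ∈ Z} = (D : Set (G →* ℂˣ)) := by
          ext χ
          simp only [D, Finset.coe_filter, Finset.mem_univ, true_and]
        rw [h4, Set.ncard_coe_finset] at h3
        exact_mod_cast h3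
      have h5 : ∑ χ, a (χ * ψ) * a χ = ∑ χ ∈ D, a (χ * ψ) * a χ := by
        symm
        refine Finset.sum_subset (Finset.subset_univ _) fun χ _ hχ => ?_
        by_contra h6
        apply hχ
        rw [Finset.mem_filter]
        exact ⟨Finset.mem_univ _, haZ _ (right_ne_zero_of_mul h6),
          haZ _ (left_ne_zero_of_mul h6)⟩
      have h6 : (∑ χ ∈ D, a (χ * ψ) * a χ) ^ 2 ≤ D.card * ∑ χ ∈ D, (a (χ * ψ) * a χ) ^ 2 :=
        sq_sum_le_card_mul_sum_sq
      rw [h5]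
      refine h6.trans ?_
      have h7 : ∑ χ ∈ D, (a (χ * ψ) * a χ) ^ 2 ≤ ∑ χ, (a (χ * ψ)) ^ 2 * (a χ) ^ 2 := by
        refine (Finset.sum_le_sum_of_subset_of_nonneg (Finset.subset_univ D)
          (fun χ _ _ => sq_nonneg _)).trans (le_of_eq ?_)
        exact Finset.sum_congr rfl fun χ _ => mul_pow _ _ _
      exact mul_le_mul hD h7 (by positivity) (by positivity)
  have hconv : ∑ ψ, ∑ χ, (a (χ * ψ)) ^ 2 * (a χ) ^ 2 = (n * P) ^ 2 := by
    rw [Finset.sum_comm]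
    have h1 : ∀ χ : G →* ℂˣ, ∑ ψ, (a (χ * ψ)) ^ 2 * (a χ) ^ 2 = (n * P) * (a χ) ^ 2 := by
      intro χ
      rw [← Finset.sum_mul]
      congr 1
      rw [← hpar]
      exact Fintype.sum_bijective _ (Group.mulLeft_bijective χ) _ _ fun ψ => rfl
    rw [Finset.sum_congr rfl fun χ _ => h1 χ, ← Finset.mul_sum, hpar]
    ring
  have h5 : n ^ 2 * (n * Q) ≤ (1 + R) * (n * P) ^ 2 := by
    calc n ^ 2 * (n * Q) = ∑ ψ, (n * ‖hat (fun g => ((f g ^ 2 : ℝ) : ℂ)) ψ‖) ^ 2 := by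
          rw [h4, Finset.mul_sum]
          refine Finset.sum_congr rfl fun ψ _ => ?_
          ring
      _ ≤ ∑ ψ : G →* ℂˣ, ((if ψ = 1 then (n * P) ^ 2 else 0) +
          R * ∑ χ, (a (χ * ψ)) ^ 2 * (a χ) ^ 2) := Finset.sum_le_sum fun ψ _ => hb ψ
      _ = (n * P) ^ 2 + R * (n * P) ^ 2 := by
          rw [Finset.sum_add_distrib, ← Finset.mul_sum, hconv, Finset.sum_ite_eq' Finset.univ,
            if_pos (Finset.mem_univ _)]
      _ = _ := by ring
  have h6 : n * Q ≤ (1 + R) * P ^ 2 := by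
    have h7 : n ^ 2 * (n * Q) ≤ n ^ 2 * ((1 + R) * P ^ 2) := by
      refine h5.trans (le_of_eq ?_)
      ring
    exact le_of_mul_le_mul_left h7 (by positivity)
  -- the support
  let s : Finset G := univ.filter (fun g => r g ≠ 0)
  have hs : {g | r g ≠ 0}.ncard = s.card := by
    rw [← Set.ncard_coe_finset]
    congr 1
    ext g
    simp only [s, Finset.coe_filter, Finset.mem_univ, true_and]
  have h7 : P ^ 2 ≤ s.card * Q := by
    have h8 : P = ∑ g ∈ s, f g ^ 2 := by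
      rw [hP]
      symm
      refine Finset.sum_subset (Finset.subset_univ _) fun g _ hg => ?_
      have h9 : r g = 0 := by
        by_contra h9
        exact hg (Finset.mem_filter.2 ⟨Finset.mem_univ _, h9⟩)
      simp only [f, h9]
      norm_num
    have h9 : Q = ∑ g ∈ s, (f g ^ 2) ^ 2 := by
      rw [hQ]
      symm
      refine (Finset.sum_subset (Finset.subset_univ _) fun g _ hg => ?_).trans ?_
      · have h9 : r g = 0 := by
          by_contra h9
          exact hg (Finset.mem_filter.2 ⟨Finset.mem_univ _, h9⟩)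
        simp only [f, h9]
        norm_num
      · refine Finset.sum_congr rfl fun g _ => ?_
        ring
    rw [h8, h9]
    exact sq_sum_le_card_mul_sum_sq
  have h8 : n * Q ≤ ((1 + R) * s.card) * Q := by
    refine h6.trans ?_
    have := mul_le_mul_of_nonneg_left h7 (by positivity : (0 : ℝ) ≤ 1 + R)
    linarith
  have h9 : n ≤ (1 + R) * s.card := le_of_mul_le_mul_right h8 hQ0
  rw [hs]
  rw [hn] at h9
  exact_mod_cast h9

end Pool.Agent.Run7.h546.AC
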