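import Mathlib
import Pool.Agent.TH170.CM.Est
import Pool.Agent.Run7.h546.AC.Cnt

/-!
# Odd sign functions orthogonal to several quadratic characters
-/

namespace Pool.Agent.Run7.h546.AC

open Finset Pool.Agent.TH170.CM

variable {G : Type*} [CommGroup G] [Fintype G]

omit [Fintype G] in
theorem val_of_sq {χ : G →* ℂˣ} (h : χ * χ = 1) (x : G) :
    ((χ x : ℂˣ) : ℂ) = 1 ∨ ((χ x : ℂˣ) : ℂ) = -1 := by
  have h1 : χ x * χ x = 1 := by
    rw [← MonoidHom.mul_apply, h, MonoidHom.one_apply]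
  have h2 : ((χ x : ℂˣ) : ℂ) * ((χ x : ℂˣ) : ℂ) = 1 := by
    rw [← Units.val_mul, h1, Units.val_one]
  exact mul_self_eq_one_iff.1 h2

omit [Fintype G] in
theorem val_c {χ : G →* ℂˣ} {c : G} (h : χ * χ = 1) (hc : χ c ≠ 1) : ((χ c : ℂˣ) : ℂ) = -1 :=
  (val_of_sq h c).resolve_left fun h1 => hc (Units.val_eq_one.1 h1)

theorem char_sum_eq_zero {χ : G →* ℂˣ} (h : χ ≠ 1) : ∑ g, ((χ g : ℂˣ) : ℂ) = 0 := by
  have h1 : (Units.coeHom ℂ).comp χ ≠ 1 := by
    intro h2
    apply h
    ext g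
    exact congrArg (fun f : G →* ℂ => f g) h2
  exact sum_hom_units_eq_zero ((Units.coeHom ℂ).comp χ) h1

/-- The values of the characters in `S`. -/
noncomputable def col (S : Finset (G →* ℂˣ)) (g : G) : S → ℂ := fun χ => ((χ.1 g : ℂˣ) : ℂ)

theorem span_col (S : Finset (G →* ℂˣ)) : Submodule.span ℂ (Set.range (col S)) = ⊤ := by
  classical
  rw [eq_top_iff, ← (Pi.basisFun ℂ S).span_eq, Submodule.span_le]
  rintro _ ⟨χ₀, rfl⟩
  rw [Pi.basisFun_apply]
  have h1 : (Fintype.card G : ℂ) • (Pi.single χ₀ (1 : ℂ) : S → ℂ) =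
      ∑ g, ((χ₀.1⁻¹ g : ℂˣ) : ℂ) • col S g := by
    funext χ
    rw [Finset.sum_apply]
    simp only [Pi.smul_apply, smul_eq_mul, col]
    have h2 : ∀ g : G, ((χ₀.1⁻¹ g : ℂˣ) : ℂ) * ((χ.1 g : ℂˣ) : ℂ) = (((χ₀.1⁻¹ * χ.1) g : ℂˣ) : ℂ) := by
      intro g
      rw [MonoidHom.mul_apply, Units.val_mul]
    rw [Finset.sum_congr rfl fun g _ => h2 g]
    by_cases h : χ = χ₀
    · subst h
      rw [Pi.single_eq_same]
      have h3 : χ.1⁻¹ * χ.1 = 1 := inv_mul_cancel χ.1
      rw [h3]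
      simp
    · rw [Pi.single_eq_of_ne h, mul_zero, char_sum_eq_zero]
      intro h3
      apply h
      apply Subtype.ext
      exact (inv_mul_eq_one.1 h3).symm
  have h2 : (Pi.single χ₀ (1 : ℂ) : S → ℂ) = (Fintype.card G : ℂ)⁻¹ •
      ∑ g, ((χ₀.1⁻¹ g : ℂˣ) : ℂ) • col S g := by
    rw [← h1, smul_smul, inv_mul_cancel₀ (by exact_mod_cast Fintype.card_ne_zero), one_smul]
  rw [SetLike.mem_coe, h2]
  exact Submodule.smul_mem _ _ (Submodule.sum_mem _ fun g _ => Submodule.smul_mem _ _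
    (Submodule.subset_span ⟨g, rfl⟩))

theorem ncard_vanish {c : G} (hc : c * c = 1) (hc1 : c ≠ 1) {g : ℕ}
    (hg : Fintype.card G = 2 * g) (S : Finset (G →* ℂˣ)) (hS : ∀ χ ∈ S, χ * χ = 1 ∧ χ c ≠ 1) :
    ∃ n : ℕ, 2 * g ≤ n * 2 ^ S.card ∧ S.card * n ≤ g ∧
      {u : G → ℤ | IsSgn c u ∧ ∀ χ ∈ S, ∑ x, (u x : ℂ) * (χ x : ℂ) = 0}.ncard ≤
        (n.choose (n / 2)) ^ S.card * 2 ^ (g - S.card * n) := by
  classical
  let w : G →* (S → ℂˣ) := MonoidHom.pi (fun χ : S => χ.1)
  have hw : ∀ x, x ∈ w.ker ↔ ∀ χ ∈ S, χ x = 1 := by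
    intro x
    rw [MonoidHom.mem_ker]
    constructor
    · intro h χ hχ
      exact congrFun h ⟨χ, hχ⟩
    · intro h
      funext χ
      exact h χ.1 χ.2
  have hidx : w.ker.index ≤ 2 ^ S.card := by
    rw [Subgroup.index_ker]
    let f : w.range → (S → Bool) := fun y χ => decide (y.1 χ = 1)
    have hf : Function.Injective f := by
      rintro ⟨_, x, rfl⟩ ⟨_, x', rfl⟩ h
      apply Subtype.ext
      funext χ
      have h1 : (w x χ = 1) ↔ (w x' χ = 1) := decide_eq_decide.1 (congrFun h χ)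
      change (χ.1 x = 1) ↔ (χ.1 x' = 1) at h1
      change χ.1 x = χ.1 x'
      rcases val_of_sq (hS χ.1 χ.2).1 x with h2 | h2 <;>
        rcases val_of_sq (hS χ.1 χ.2).1 x' with h3 | h3
      · exact Units.ext (h2.trans h3.symm)
      · have h4 := h1.1 (Units.val_eq_one.1 h2)
        exact (Units.val_eq_one.1 h2).trans h4.symm
      · have h4 := h1.2 (Units.val_eq_one.1 h3)
        exact h4.trans (Units.val_eq_one.1 h3).symm
      · exact Units.ext (h2.trans h3.symm)
    have h1 := Nat.card_le_card_of_injective f hf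
    rwa [Nat.card_eq_fintype_card (α := S → Bool), Fintype.card_fun, Fintype.card_bool,
      Fintype.card_coe] at h1
  have hcard : w.ker.index * Nat.card w.ker = 2 * g := by
    rw [← hg, ← Nat.card_eq_fintype_card]
    exact w.ker.index_mul_card
  obtain ⟨b, hbr, hbs, hbl⟩ := exists_linearIndependent ℂ (Set.range (col S))
  rw [span_col] at hbs
  have hbfin : b.Finite := (Set.finite_range (col S)).subset hbr
  have : Fintype b := hbfin.fintype
  have hcb : Fintype.card b = S.card := by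
    let B : Module.Basis b ℂ (S → ℂ) := Module.Basis.mk hbl (by
      rw [Subtype.range_coe, hbs])
    have h1 := Module.finrank_eq_card_basis B
    rw [Module.finrank_fintype_fun_eq_card, Fintype.card_coe] at h1
    exact h1.symm
  have hch : ∀ v : b, ∃ x : G, col S x = v.1 := fun v => hbr v.2
  choose e he using hch
  have hcolH : ∀ x y, y ∈ w.ker → col S (x * y) = col S x := by
    intro x y hy
    funext χ
    rw [hw] at hy
    rw [col, col, map_mul, hy χ.1 χ.2, mul_one]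
  have hcolc : ∀ x, col S (c * x) = - col S x := by
    intro x
    funext χ
    rw [col, Pi.neg_apply, col, map_mul, Units.val_mul, val_c (hS χ.1 χ.2).1 (hS χ.1 χ.2).2,
      neg_one_mul]
  have hcc : ∀ x : G, c * (c * x) = x := fun x => by rw [← mul_assoc, hc, one_mul]
  have hne : ∀ x : G, c * x ≠ x := fun x h => hc1 (mul_eq_right.1 h)
  let κ : b × w.ker → G := fun p => e p.1 * (p.2 : G)
  have hκ : ∀ p, col S (κ p) = p.1.1 := by
    intro p
    rw [hcolH _ _ p.2.2, he]
  have hinj : Function.Injective κ := by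
    intro p q h
    have h1 := congrArg (col S) h
    rw [hκ, hκ] at h1
    have h2 : p.1 = q.1 := Subtype.ext h1
    have h3 : e p.1 * (p.2 : G) = e q.1 * (q.2 : G) := h
    rw [h2] at h3
    exact Prod.ext h2 (Subtype.ext (mul_left_cancel h3))
  have hsep : ∀ p q, κ p ≠ c * κ q := by
    intro p q h
    have h1 := congrArg (col S) h
    rw [hcolc, hκ, hκ] at h1
    have h2 : ∑ i ∈ ({p.1, q.1} : Finset b), (1 : ℂ) • (i : S → ℂ) = 0 := by
      by_cases h3 : p.1 = q.1
      · rw [h3, Finset.pair_eq_singleton, Finset.sum_singleton, one_smul]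
        rw [h3] at h1
        exact self_eq_neg.1 h1
      · rw [Finset.sum_pair h3, one_smul, one_smul, h1, neg_add_cancel]
    have h3 := linearIndependent_iff'.1 hbl {p.1, q.1} (fun _ => 1) h2 p.1 (by simp)
    exact one_ne_zero h3
  obtain ⟨hle, hmain⟩ := ncard_odd_le (J := b) (H := w.ker) (c := fun x : G => c * x) hcc hne hg κ
    hinj hsep {u : G → ℤ | IsSgn c u ∧ ∀ χ ∈ S, ∑ x, (u x : ℂ) * (χ x : ℂ) = 0}
    (fun u hu => hu.1) (by
      intro u hu u' hu' hagree j
      let d : G → ℤ := fun x => u x - u' x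
      have hd : ∀ x, (∀ p, x ≠ κ p ∧ x ≠ c * κ p) → d x = 0 := fun x hx =>
        sub_eq_zero.2 (hagree x hx)
      have hdc : ∀ x, d (c * x) = - d x := by
        intro x
        simp only [d]
        rw [hu.1.2, hu'.1.2]
        ring
      let D : b → ℂ := fun v => ∑ y : w.ker, (d (κ (v, y)) : ℂ)
      have hD : ∑ v, D v • (v : S → ℂ) = 0 := by
        funext χ
        rw [Finset.sum_apply, Pi.zero_apply]
        have h1 : ∑ x, (d x : ℂ) * ((χ.1 x : ℂˣ) : ℂ) = 0 := by
          have h2 : ∀ x, (d x : ℂ) * ((χ.1 x : ℂˣ) : ℂ) = (u x : ℂ) * ((χ.1 x : ℂˣ) : ℂ) -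
              (u' x : ℂ) * ((χ.1 x : ℂˣ) : ℂ) := by
            intro x
            simp only [d]
            push_cast
            ring
          rw [Finset.sum_congr rfl fun x _ => h2 x, Finset.sum_sub_distrib, hu.2 _ χ.2,
            hu'.2 _ χ.2, sub_zero]
        let K1 : Finset G := univ.image κ
        let K2 : Finset G := univ.image (fun p => c * κ p)
        have hdisj : Disjoint K1 K2 := by
          rw [Finset.disjoint_left]
          intro x hx1 hx2
          obtain ⟨p, -, rfl⟩ := mem_image.1 hx1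
          obtain ⟨q, -, hq⟩ := mem_image.1 hx2
          exact hsep p q hq.symm
        have h3 : ∑ x ∈ K1 ∪ K2, (d x : ℂ) * ((χ.1 x : ℂˣ) : ℂ) = 0 := by
          rw [← h1]
          refine Finset.sum_subset (Finset.subset_univ _) fun x _ hx => ?_
          rw [hd x (fun p => ⟨fun h => hx ?_, fun h => hx ?_⟩), Int.cast_zero, zero_mul]
          · exact mem_union_left _ (mem_image.2 ⟨p, mem_univ _, h.symm⟩)
          · exact mem_union_right _ (mem_image.2 ⟨p, mem_univ _, h.symm⟩)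
        rw [Finset.sum_union hdisj, Finset.sum_image (fun p _ q _ h => hinj h),
          Finset.sum_image (fun p _ q _ h => hinj (mul_left_cancel h))] at h3
        have h4 : ∀ p, (d (c * κ p) : ℂ) * ((χ.1 (c * κ p) : ℂˣ) : ℂ) =
            (d (κ p) : ℂ) * ((χ.1 (κ p) : ℂˣ) : ℂ) := by
          intro p
          rw [hdc, map_mul, Units.val_mul, val_c (hS χ.1 χ.2).1 (hS χ.1 χ.2).2]
          push_cast
          ring
        rw [Finset.sum_congr rfl fun p _ => h4 p, ← two_mul] at h3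
        have h5 := (mul_eq_zero.1 h3).resolve_left two_ne_zero
        rw [Fintype.sum_prod_type] at h5
        rw [← h5]
        refine Finset.sum_congr rfl fun v _ => ?_
        rw [Pi.smul_apply, smul_eq_mul, Finset.sum_mul]
        refine Finset.sum_congr rfl fun y _ => ?_
        congr 1
        exact (congrFun (hκ (v, y)) χ).symm
      have h6 := linearIndependent_iff'.1 hbl univ D hD j (mem_univ _)
      have h7 : ((∑ y, u (κ (j, y)) - ∑ y, u' (κ (j, y)) : ℤ) : ℂ) = 0 := by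
        rw [← h6, ← Finset.sum_sub_distrib]
        push_cast
        exact Finset.sum_congr rfl fun y _ => by simp only [d]; push_cast; rfl
      exact sub_eq_zero.1 (by exact_mod_cast h7))
  rw [hcb, ← Nat.card_eq_fintype_card (α := w.ker)] at hmain hle
  refine ⟨Nat.card w.ker, ?_, hle, hmain⟩
  rw [← hcard, mul_comm]
  exact Nat.mul_le_mul_left _ hidx

/-- **Few odd sign functions are orthogonal to `2 t` given quadratic characters.** -/
theorem ncard_vanish_le {c : G} (hc : c * c = 1) (hc1 : c ≠ 1) {g : ℕ} (hg0 : 0 < g)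
    (hg : Fintype.card G = 2 * g) (S : Finset (G →* ℂˣ)) (hS : ∀ χ ∈ S, χ * χ = 1 ∧ χ c ≠ 1)
    (t : ℕ) (hSt : S.card = 2 * t) :
    ({u : G → ℤ | IsSgn c u ∧ ∀ χ ∈ S, ∑ x, (u x : ℂ) * (χ x : ℂ) = 0}.ncard : ℝ) ≤
      2 ^ g * (4 ^ t / (2 * g)) ^ t := by
  obtain ⟨n, h1, h2, h3⟩ := ncard_vanish hc hc1 hg S hS
  rw [hSt] at h1 h2 h3
  have hn : 1 ≤ n := by
    rcases Nat.eq_zero_or_pos n with h | h
    · rw [h, zero_mul] at h1
      omega
    · exact h
  have h4 : ({u : G → ℤ | IsSgn c u ∧ ∀ χ ∈ S, ∑ x, (u x : ℂ) * (χ x : ℂ) = 0}.ncard : ℝ) ≤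
      2 ^ g * pr n ^ (2 * t) := by
    refine (Nat.cast_le.2 h3).trans (le_of_eq ?_)
    rw [pr, div_pow]
    push_cast
    have h5 : (2 : ℝ) ^ g = 2 ^ (g - 2 * t * n) * (2 ^ n) ^ (2 * t) := by
      rw [← pow_mul, ← pow_add]
      congr 1
      have : n * (2 * t) = 2 * t * n := by ring
      omega
    rw [h5]
    field_simp
  refine h4.trans (mul_le_mul_of_nonneg_left ?_ (by positivity))
  rw [pow_mul]
  refine pow_le_pow_left₀ (sq_nonneg _) ?_ t
  refine (pr_sq_le hn).trans ?_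
  have hnR : (0 : ℝ) < n := by exact_mod_cast hn
  have hgR : (0 : ℝ) < g := by exact_mod_cast hg0
  rw [div_le_div_iff₀ hnR (by positivity), one_mul]
  have h5 : ((2 * g : ℕ) : ℝ) ≤ ((n * 2 ^ (2 * t) : ℕ) : ℝ) := Nat.cast_le.2 h1
  push_cast at h5
  rw [pow_mul] at h5
  norm_num at h5 ⊢
  linarith

end Pool.Agent.Run7.h546.AC
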