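import Mathlib
import Pool.Agent.TH170.CM.Asym
import Pool.Agent.Run7.h546.AC.Fou
import Pool.Agent.Run7.h546.AC.Qua

/-!
# Odd sign functions whose relations have small support
-/

namespace Pool.Agent.Run7.h546.AC

open Finset Pool.Agent.TH170.CM

theorem markov {α β : Type*} (U : Finset α) (Q : Finset β) (P : α → β → Prop)
    [∀ u q, Decidable (P u q)] (b : ℕ) (B : ℝ)
    (hB : ∀ q ∈ Q, ((U.filter (fun u => P u q)).card : ℝ) ≤ B) :
    (b : ℝ) * ((U.filter (fun u => b ≤ (Q.filter (fun q => P u q)).card)).card : ℝ) ≤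
      Q.card * B := by
  classical
  set V := U.filter (fun u => b ≤ (Q.filter (fun q => P u q)).card) with hV
  calc (b : ℝ) * (V.card : ℝ) = ∑ u ∈ V, (b : ℝ) := by
        rw [Finset.sum_const, nsmul_eq_mul, mul_comm]
    _ ≤ ∑ u ∈ V, ((Q.filter (fun q => P u q)).card : ℝ) :=
        Finset.sum_le_sum fun u hu => by
          exact_mod_cast (Finset.mem_filter.1 hu).2
    _ ≤ ∑ u ∈ U, ((Q.filter (fun q => P u q)).card : ℝ) :=
        Finset.sum_le_sum_of_subset_of_nonneg (Finset.filter_subset _ _)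
          (fun u _ _ => Nat.cast_nonneg _)
    _ = ∑ u ∈ U, ∑ q ∈ Q, (if P u q then (1 : ℝ) else 0) :=
        Finset.sum_congr rfl fun u _ => by rw [Finset.sum_boole]
    _ = ∑ q ∈ Q, ∑ u ∈ U, (if P u q then (1 : ℝ) else 0) := Finset.sum_comm
    _ = ∑ q ∈ Q, ((U.filter (fun u => P u q)).card : ℝ) :=
        Finset.sum_congr rfl fun q _ => by rw [Finset.sum_boole]
    _ ≤ ∑ q ∈ Q, B := Finset.sum_le_sum hB
    _ = Q.card * B := by rw [Finset.sum_const, nsmul_eq_mul]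

variable {G : Type*} [CommGroup G] [Fintype G]

section hom
omit [Fintype G]

theorem hsq (χ ψ : G →* ℂˣ) : (χ * ψ) * (χ * ψ) = (χ * χ) * (ψ * ψ) := by
  ext x
  simp only [MonoidHom.mul_apply, Units.val_mul]
  ring

theorem hassoc (χ ψ ω : G →* ℂˣ) : (χ * ψ) * ω = χ * (ψ * ω) := by
  ext x
  simp only [MonoidHom.mul_apply, Units.val_mul]
  ring

theorem hmul_one (χ : G →* ℂˣ) : χ * 1 = χ := by
  ext x
  simp only [MonoidHom.mul_apply, MonoidHom.one_apply, mul_one]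

theorem hone_mul (χ : G →* ℂˣ) : 1 * χ = χ := by
  ext x
  simp only [MonoidHom.mul_apply, MonoidHom.one_apply, one_mul]

theorem heq_one {χ ψ : G →* ℂˣ} (h : χ * ψ = χ) : ψ = 1 := by
  ext x
  have h1 := DFunLike.congr_fun h x
  rw [MonoidHom.mul_apply] at h1
  rw [mul_eq_left.1 h1, MonoidHom.one_apply]

theorem hcancel {χ χ' ψ : G →* ℂˣ} (h : χ * ψ = χ' * ψ) : χ = χ' := by
  ext x
  have h1 := DFunLike.congr_fun h x
  rw [MonoidHom.mul_apply, MonoidHom.mul_apply] at h1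
  rw [mul_right_cancel h1]

end hom

/-- The odd characters that are orthogonal to `u`. -/
def Zr (c : G) (u : G → ℤ) : Set (G →* ℂˣ) :=
  {χ | χ c ≠ 1 ∧ ∑ x, (u x : ℂ) * ((χ x : ℂˣ) : ℂ) = 0}

theorem rel_spectrum {c : G} (u r : G → ℤ)
    (hodd : ∀ g, r (c * g) = - r g) (hrel : ∀ s, ∑ g, r g * u (s * g) = 0) (ψ : G →* ℂˣ)
    (hψ : ∑ g, (r g : ℂ) * (ψ g : ℂ) ≠ 0) : ψ⁻¹ ∈ Zr c u := by
  classical
  have hcψ : ((ψ c : ℂˣ) : ℂ) ≠ 1 := by
    intro h1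
    apply hψ
    have h2 : ∑ g, (r g : ℂ) * (ψ g : ℂ) = - ∑ g, (r g : ℂ) * (ψ g : ℂ) := by
      calc ∑ g, (r g : ℂ) * (ψ g : ℂ) = ∑ g, (r (c * g) : ℂ) * (ψ (c * g) : ℂ) :=
            (Fintype.sum_equiv (Equiv.mulLeft c) _ _ (fun g => rfl)).symm
        _ = ∑ g, -((r g : ℂ) * (ψ g : ℂ)) := by
            refine Finset.sum_congr rfl fun g _ => ?_
            rw [hodd, map_mul, Units.val_mul, h1]
            push_cast
            ring
        _ = _ := by rw [Finset.sum_neg_distrib]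
    have h3 : (2 : ℂ) * ∑ g, (r g : ℂ) * (ψ g : ℂ) = 0 := by linear_combination h2
    exact (mul_eq_zero.1 h3).resolve_left two_ne_zero
  refine ⟨?_, ?_⟩
  · intro h1
    rw [MonoidHom.inv_apply, inv_eq_one] at h1
    exact hcψ (by rw [h1, Units.val_one])
  · have h1 : ∑ s, ((∑ g, r g * u (s * g) : ℤ) : ℂ) * ((ψ⁻¹ : G →* ℂˣ) s : ℂ) = 0 := by
      refine Finset.sum_eq_zero fun s _ => ?_
      rw [hrel s, Int.cast_zero, zero_mul]
    have h2 : ∑ s, ((∑ g, r g * u (s * g) : ℤ) : ℂ) * ((ψ⁻¹ : G →* ℂˣ) s : ℂ) =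
        (∑ g, (r g : ℂ) * (ψ g : ℂ)) * ∑ t, (u t : ℂ) * ((ψ⁻¹ : G →* ℂˣ) t : ℂ) := by
      have h3 : ∀ s, ((∑ g, r g * u (s * g) : ℤ) : ℂ) * ((ψ⁻¹ : G →* ℂˣ) s : ℂ) =
          ∑ g, (r g : ℂ) * (ψ g : ℂ) * ((u (s * g) : ℂ) * ((ψ⁻¹ : G →* ℂˣ) (s * g) : ℂ)) := by
        intro s
        push_cast
        rw [Finset.sum_mul]
        refine Finset.sum_congr rfl fun g _ => ?_
        have h4 : (ψ g : ℂ) * ((ψ⁻¹ : G →* ℂˣ) (s * g) : ℂ) = ((ψ⁻¹ : G →* ℂˣ) s : ℂ) := by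
          rw [← Units.val_mul]
          congr 1
          rw [map_mul, MonoidHom.inv_apply, MonoidHom.inv_apply, mul_comm (ψ s)⁻¹,
            mul_inv_cancel_left]
        rw [← h4]
        ring
      rw [Finset.sum_congr rfl fun s _ => h3 s, Finset.sum_comm, Finset.sum_mul]
      refine Finset.sum_congr rfl fun g _ => ?_
      rw [← Finset.mul_sum]
      congr 1
      exact Fintype.sum_equiv (Equiv.mulRight g) _ _ (fun s => rfl)
    rw [h2] at h1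
    exact (mul_eq_zero.1 h1).resolve_left hψ

/-- Few odd sign functions are orthogonal to a character that is not quadratic. -/
theorem ncard_nonquad_le {C₀ : ℝ} (hC₀ : ∀ m : ℕ, (m : ℝ) ^ 2 / 2 ^ m.totient ≤ C₀) {c : G}
    (hc : c * c = 1) {g : ℕ} (hg0 : 0 < g) (hg : Fintype.card G = 2 * g) (χ : G →* ℂˣ)
    (hχc : χ c ≠ 1) (hχ : χ * χ ≠ 1) :
    ({u : G → ℤ | IsSgn c u ∧ ∑ x, (u x : ℂ) * ((χ x : ℂˣ) : ℂ) = 0}.ncard : ℝ) ≤
      2 ^ g * ((5 + 4 * C₀) / g) := by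
  classical
  have hcN : c ∉ χ.ker := fun h => hχc (MonoidHom.mem_ker.1 h)
  have h1 := ncard_degAt_weight (N := χ.ker) hc hcN
  have h2 := weight_bound hc hg (N := χ.ker) ⟨hcN, χ, rfl⟩
  have hidx : χ.ker.index ≠ 2 := by
    intro h3
    apply hχ
    ext x
    have h4 : x * x ∈ χ.ker := by
      have := Subgroup.sq_mem_of_index_two h3 x
      rwa [sq] at this
    rw [MonoidHom.mem_ker, map_mul] at h4
    rw [MonoidHom.mul_apply, MonoidHom.one_apply, h4]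
  have hgR : (1 : ℝ) ≤ g := by exact_mod_cast hg0
  have h3 : weight χ.ker.index (Nat.card χ.ker) ≤ (5 + 4 * C₀) / g := by
    refine h2.trans ?_
    rw [if_neg hidx, zero_add]
    have h4 : (if χ.ker.index = 4 then 2 / (g : ℝ) else 0) ≤ 2 / g := by
      split_ifs
      · exact le_rfl
      · positivity
    have h5 : (if χ.ker.index = 6 then 3 / (g : ℝ) else 0) ≤ 3 / g := by
      split_ifs
      · exact le_rfl
      · positivity
    have hC0 : 0 ≤ C₀ := le_trans (by positivity) (hC₀ 0)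
    have h6 : 4 / (g : ℝ) ^ 2 * ((χ.ker.index : ℝ) ^ 2 / 2 ^ χ.ker.index.totient) ≤ 4 * C₀ / g := by
      calc 4 / (g : ℝ) ^ 2 * ((χ.ker.index : ℝ) ^ 2 / 2 ^ χ.ker.index.totient)
          ≤ 4 / (g : ℝ) ^ 2 * C₀ := mul_le_mul_of_nonneg_left (hC₀ _) (by positivity)
        _ = 4 * C₀ / g ^ 2 := by ring
        _ ≤ 4 * C₀ / g := by
            refine div_le_div_of_nonneg_left (by positivity) (by positivity) ?_
            nlinarith
    have h7 : (5 + 4 * C₀) / (g : ℝ) = 2 / g + 3 / g + 4 * C₀ / g := by ring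
    rw [h7]
    linarith
  have hhalf : Fintype.card G / 2 = g := by omega
  rw [hhalf] at h1
  refine le_trans ?_ (h1.trans (mul_le_mul_of_nonneg_left h3 (by positivity)))
  rw [Nat.cast_le]
  refine Set.ncard_le_ncard ?_ (finite_sgn fun u hu => hu.1.1)
  rintro u ⟨hu, hz⟩
  exact ⟨hu, χ, rfl, hz⟩

/-- The pairs of quadratic characters with quotient `ψ` that are orthogonal to `u`. -/
def Yr (c : G) (u : G → ℤ) (ψ : G →* ℂˣ) : Set (G →* ℂˣ) :=
  {χ | χ ∈ Zr c u ∧ χ * ψ ∈ Zr c u ∧ χ * χ = 1 ∧ (χ * ψ) * (χ * ψ) = 1}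

theorem ncard_pairs_le {c : G} (hc : c * c = 1) (hc1 : c ≠ 1) {g : ℕ} (hg0 : 0 < g)
    (hg : Fintype.card G = 2 * g) (ψ : G →* ℂˣ) (hψ : ψ ≠ 1) {t L : ℕ} (hL : 0 < L) :
    ({u : G → ℤ | IsSgn c u ∧ 2 * L ≤ (Yr c u ψ).ncard}.ncard : ℝ) * ((L + 1 - t : ℕ) : ℝ) ^ t ≤
      2 ^ g * (4 ^ t) ^ t := by
  classical
  rcases Set.eq_empty_or_nonempty {u : G → ℤ | IsSgn c u ∧ 2 * L ≤ (Yr c u ψ).ncard} with
    hemp | ⟨u₀, hu₀, hY₀⟩
  · rw [hemp, Set.ncard_empty, Nat.cast_zero, zero_mul]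
    positivity
  have hψ' : ψ * ψ = 1 ∧ ψ c = 1 := by
    have h1 : (Yr c u₀ ψ).Nonempty := by
      by_contra h2
      rw [Set.not_nonempty_iff_eq_empty] at h2
      rw [h2, Set.ncard_empty] at hY₀
      omega
    obtain ⟨χ, h2, h3, h4, h5⟩ := h1
    have h6 : ψ * ψ = 1 := by
      rw [hsq, h4, hone_mul] at h5
      exact h5
    refine ⟨h6, ?_⟩
    have h7 := val_c h4 h2.1
    have h8 := val_c h5 h3.1
    rw [MonoidHom.mul_apply, Units.val_mul, h7] at h8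
    apply Units.ext
    rw [Units.val_one]
    linear_combination -h8
  obtain ⟨hψ2, hψc⟩ := hψ'
  have hcc : ∀ χ : G →* ℂˣ, (χ * ψ) * ψ = χ := fun χ => by
    rw [hassoc, hψ2, hmul_one]
  have hne : ∀ χ : G →* ℂˣ, χ * ψ ≠ χ := fun χ h => hψ (heq_one h)
  obtain ⟨T, hT⟩ := exists_transversal (c := fun χ : G →* ℂˣ => χ * ψ) hcc hne
  let Qo : Finset (G →* ℂˣ) := T.filter (fun χ => χ * χ = 1 ∧ χ c ≠ 1)
  let Q : Finset (Finset (G →* ℂˣ)) := powersetCard t Qo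
  let P : (G → ℤ) → Finset (G →* ℂˣ) → Prop := fun u S => ∀ χ ∈ S, χ ∈ Zr c u ∧ χ * ψ ∈ Zr c u
  have hfin : {u : G → ℤ | IsSgn c u}.Finite := finite_sgn fun u hu => hu.1
  let U : Finset (G → ℤ) := hfin.toFinset
  have hU : ∀ u, u ∈ U ↔ IsSgn c u := fun u => by
    rw [Set.Finite.mem_toFinset]
    rfl
  have hgR : (0 : ℝ) < g := by exact_mod_cast hg0
  have hB : ∀ S ∈ Q, ((U.filter (fun u => P u S)).card : ℝ) ≤ 2 ^ g * (4 ^ t / (2 * g)) ^ t := by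
    intro S hS
    rw [mem_powersetCard] at hS
    have hST : ∀ χ ∈ S, χ ∈ T ∧ χ * χ = 1 ∧ χ c ≠ 1 := fun χ hχ => by
      have := mem_filter.1 (hS.1 hχ)
      exact ⟨this.1, this.2.1, this.2.2⟩
    let S' : Finset (G →* ℂˣ) := S ∪ S.image (fun χ => χ * ψ)
    have hdisj : Disjoint S (S.image (fun χ => χ * ψ)) := by
      rw [Finset.disjoint_left]
      intro χ hχ hχ2
      obtain ⟨χ', hχ', rfl⟩ := mem_image.1 hχ2
      exact (hT χ').1 (hST χ' hχ').1 (hST _ hχ).1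
    have hS'c : S'.card = 2 * t := by
      rw [card_union_of_disjoint hdisj, card_image_of_injective _
        (fun χ χ' h => hcancel h), hS.2]
      ring
    have hS' : ∀ χ ∈ S', χ * χ = 1 ∧ χ c ≠ 1 := by
      intro χ hχ
      rcases mem_union.1 hχ with h | h
      · exact (hST χ h).2
      · obtain ⟨χ', hχ', rfl⟩ := mem_image.1 h
        obtain ⟨-, h2, h3⟩ := hST χ' hχ'
        refine ⟨?_, ?_⟩
        · rw [hsq, h2, hψ2, hone_mul]
        · rw [MonoidHom.mul_apply, hψc, mul_one]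
          exact h3
    refine le_trans ?_ (ncard_vanish_le hc hc1 hg0 hg S' hS' t hS'c)
    rw [Nat.cast_le, ← Set.ncard_coe_finset]
    refine Set.ncard_le_ncard ?_ (finite_sgn fun u hu => hu.1.1)
    intro u hu
    rw [mem_coe, mem_filter, hU] at hu
    refine ⟨hu.1, fun χ hχ => ?_⟩
    rcases mem_union.1 hχ with h | h
    · exact (hu.2 χ h).1.2
    · obtain ⟨χ', hχ', rfl⟩ := mem_image.1 h
      exact (hu.2 χ' hχ').2.2
  have hmar := markov U Q P (L.choose t) _ hB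
  have hsub : {u : G → ℤ | IsSgn c u ∧ 2 * L ≤ (Yr c u ψ).ncard}.ncard ≤
      (U.filter (fun u => L.choose t ≤ (Q.filter (fun S => P u S)).card)).card := by
    rw [← Set.ncard_coe_finset]
    refine Set.ncard_le_ncard ?_ (Finset.finite_toSet _)
    rintro u ⟨hu, hY⟩
    rw [mem_coe, mem_filter, hU]
    refine ⟨hu, ?_⟩
    let Y : Finset (G →* ℂˣ) := univ.filter (fun χ => χ ∈ Yr c u ψ)
    have hYmem : ∀ χ, χ ∈ Y ↔ χ ∈ Yr c u ψ := fun χ => by
      rw [mem_filter]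
      exact ⟨fun h => h.2, fun h => ⟨mem_univ _, h⟩⟩
    have hYc : (Yr c u ψ).ncard = Y.card := by
      rw [← Set.ncard_coe_finset]
      congr 1
      ext χ
      rw [mem_coe, hYmem]
    have h1 : Y.card ≤ 2 * (Y.filter (fun χ => χ ∈ T)).card := by
      rw [← Finset.card_filter_add_card_filter_not (s := Y) (fun χ => χ ∈ T), two_mul]
      refine Nat.add_le_add_left ?_ _
      refine Finset.card_le_card_of_injOn (fun χ => χ * ψ) ?_
        (fun χ _ χ' _ h => hcancel h)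
      intro χ hχ
      rw [mem_coe, mem_filter, hYmem] at hχ
      rw [mem_coe, mem_filter, hYmem]
      refine ⟨⟨hχ.1.2.1, ?_, hχ.1.2.2.2, ?_⟩, ?_⟩
      · rw [hcc]
        exact hχ.1.1
      · rw [hcc]
        exact hχ.1.2.2.1
      · by_contra h3
        exact hχ.2 ((hT χ).2 h3)
    have h2 : L ≤ (Y.filter (fun χ => χ ∈ T)).card := by omega
    have h3 : powersetCard t (Y.filter (fun χ => χ ∈ T)) ⊆ Q.filter (fun S => P u S) := by
      intro S hS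
      rw [mem_powersetCard] at hS
      rw [mem_filter, mem_powersetCard]
      refine ⟨⟨fun χ hχ => ?_, hS.2⟩, fun χ hχ => ?_⟩
      · have h4 := mem_filter.1 (hS.1 hχ)
        rw [hYmem] at h4
        rw [mem_filter]
        exact ⟨h4.2, h4.1.2.2.1, h4.1.1.1⟩
      · have h4 := mem_filter.1 (hS.1 hχ)
        rw [hYmem] at h4
        exact ⟨h4.1.1, h4.1.2.1⟩
    calc L.choose t ≤ ((Y.filter (fun χ => χ ∈ T)).card).choose t := Nat.choose_le_choose t h2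
      _ = (powersetCard t (Y.filter (fun χ => χ ∈ T))).card := (card_powersetCard _ _).symm
      _ ≤ _ := Finset.card_le_card h3
  have hQ : (Q.card : ℝ) ≤ (2 * g) ^ t / t.factorial := by
    have h1 : Q.card ≤ (2 * g).choose t := by
      rw [card_powersetCard]
      refine Nat.choose_le_choose t ?_
      refine (Finset.card_le_card (Finset.subset_univ _)).trans ?_
      rw [Finset.card_univ, card_chars, hg]
    refine (Nat.cast_le.2 h1).trans ?_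
    have h2 := Nat.choose_le_pow_div (α := ℝ) t (2 * g)
    push_cast at h2
    exact h2
  have hfac : (0 : ℝ) < t.factorial := by exact_mod_cast t.factorial_pos
  have h1 : ((L + 1 - t : ℕ) : ℝ) ^ t ≤ t.factorial * (L.choose t : ℝ) := by
    have h2 := Nat.pow_le_choose (α := ℝ) t L
    rw [div_le_iff₀ hfac] at h2
    linarith
  set N : ℝ := ({u : G → ℤ | IsSgn c u ∧ 2 * L ≤ (Yr c u ψ).ncard}.ncard : ℝ) with hN
  have hN0 : 0 ≤ N := Nat.cast_nonneg _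
  have hN1 : N ≤ ((U.filter (fun u => L.choose t ≤ (Q.filter (fun S => P u S)).card)).card : ℝ) :=
    Nat.cast_le.2 hsub
  calc N * ((L + 1 - t : ℕ) : ℝ) ^ t ≤ N * (t.factorial * (L.choose t : ℝ)) :=
        mul_le_mul_of_nonneg_left h1 hN0
    _ = t.factorial * ((L.choose t : ℝ) * N) := by ring
    _ ≤ t.factorial * ((L.choose t : ℝ) *
        ((U.filter (fun u => L.choose t ≤ (Q.filter (fun S => P u S)).card)).card : ℝ)) := by
        refine mul_le_mul_of_nonneg_left (mul_le_mul_of_nonneg_left hN1 (Nat.cast_nonneg _)) hfac.le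
    _ ≤ t.factorial * (Q.card * (2 ^ g * (4 ^ t / (2 * g)) ^ t)) :=
        mul_le_mul_of_nonneg_left hmar hfac.le
    _ ≤ t.factorial * ((2 * g) ^ t / t.factorial * (2 ^ g * (4 ^ t / (2 * g)) ^ t)) := by
        refine mul_le_mul_of_nonneg_left (mul_le_mul_of_nonneg_right hQ (by positivity)) hfac.le
    _ = 2 ^ g * (4 ^ t) ^ t := by
        rw [div_pow]
        field_simp

theorem ncard_nonquads_le {C₀ : ℝ} (hC₀ : ∀ m : ℕ, (m : ℝ) ^ 2 / 2 ^ m.totient ≤ C₀) {c : G}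
    (hc : c * c = 1) {g : ℕ} (hg0 : 0 < g) (hg : Fintype.card G = 2 * g) (L : ℕ) :
    (L : ℝ) * ({u : G → ℤ | IsSgn c u ∧
      L ≤ {χ : G →* ℂˣ | χ ∈ Zr c u ∧ χ * χ ≠ 1}.ncard}.ncard : ℝ) ≤
      2 ^ g * (2 * (5 + 4 * C₀)) := by
  classical
  have hfin : {u : G → ℤ | IsSgn c u}.Finite := finite_sgn fun u hu => hu.1
  let U : Finset (G → ℤ) := hfin.toFinset
  have hU : ∀ u, u ∈ U ↔ IsSgn c u := fun u => by
    rw [Set.Finite.mem_toFinset]
    rfl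
  have hgR : (0 : ℝ) < g := by exact_mod_cast hg0
  have hC0 : 0 ≤ C₀ := le_trans (by positivity) (hC₀ 0)
  let Q : Finset (G →* ℂˣ) := univ.filter (fun χ => χ c ≠ 1 ∧ χ * χ ≠ 1)
  have hB : ∀ χ ∈ Q, ((U.filter (fun u => χ ∈ Zr c u)).card : ℝ) ≤
      2 ^ g * ((5 + 4 * C₀) / g) := by
    intro χ hχ
    have h1 := (mem_filter.1 hχ).2
    refine le_trans ?_ (ncard_nonquad_le hC₀ hc hg0 hg χ h1.1 h1.2)
    rw [Nat.cast_le, ← Set.ncard_coe_finset]
    refine Set.ncard_le_ncard ?_ (finite_sgn fun u hu => hu.1.1)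
    intro u hu
    rw [mem_coe, mem_filter, hU] at hu
    exact ⟨hu.1, hu.2.2⟩
  have hmar := markov U Q (fun u χ => χ ∈ Zr c u) L _ hB
  have hsub : {u : G → ℤ | IsSgn c u ∧
      L ≤ {χ : G →* ℂˣ | χ ∈ Zr c u ∧ χ * χ ≠ 1}.ncard}.ncard ≤
      (U.filter (fun u => L ≤ (Q.filter (fun χ => χ ∈ Zr c u)).card)).card := by
    rw [← Set.ncard_coe_finset]
    refine Set.ncard_le_ncard ?_ (Finset.finite_toSet _)
    rintro u ⟨hu, hY⟩
    rw [mem_coe, mem_filter, hU]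
    refine ⟨hu, hY.trans ?_⟩
    rw [← Set.ncard_coe_finset]
    refine Set.ncard_le_ncard ?_ (Finset.finite_toSet _)
    rintro χ ⟨h1, h2⟩
    rw [mem_coe, mem_filter, mem_filter]
    exact ⟨⟨mem_univ _, h1.1, h2⟩, h1⟩
  have hQ : (Q.card : ℝ) ≤ 2 * g := by
    have h1 : Q.card ≤ 2 * g := by
      refine (Finset.card_le_card (Finset.subset_univ _)).trans ?_
      rw [Finset.card_univ, card_chars, hg]
    exact_mod_cast h1
  calc _ ≤ (L : ℝ) * ((U.filter (fun u => L ≤ (Q.filter (fun χ => χ ∈ Zr c u)).card)).card : ℝ) :=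
        mul_le_mul_of_nonneg_left (Nat.cast_le.2 hsub) (Nat.cast_nonneg _)
    _ ≤ Q.card * (2 ^ g * ((5 + 4 * C₀) / g)) := hmar
    _ ≤ (2 * g) * (2 ^ g * ((5 + 4 * C₀) / g)) := mul_le_mul_of_nonneg_right hQ (by positivity)
    _ = _ := by field_simp

/-- **Few odd sign functions have a relation with small support.** -/
theorem ncard_bad {C₀ : ℝ} (hC₀ : ∀ m : ℕ, (m : ℝ) ^ 2 / 2 ^ m.totient ≤ C₀) {c : G}
    (hc : c * c = 1) (hc1 : c ≠ 1) {g : ℕ} (hg0 : 0 < g) (hg : Fintype.card G = 2 * g)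
    (t L k : ℕ) (ht : t ≤ L) (hL : 0 < L) (hk : 4 * L * k < g) :
    ({u : G → ℤ | IsSgn c u ∧ ∃ r : G → ℤ, r ≠ 0 ∧ (∀ x, r (c * x) = - r x) ∧
      (∀ s, ∑ x, r x * u (s * x) = 0) ∧ {x | r x ≠ 0}.ncard ≤ 2 * k}.ncard : ℝ) ≤
      2 ^ g * (2 * (5 + 4 * C₀) / L + 2 * g * (4 ^ t) ^ t / ((L + 1 - t : ℕ) : ℝ) ^ t) := by
  classical
  have hgR : (0 : ℝ) < g := by exact_mod_cast hg0
  have hLR : (0 : ℝ) < L := by exact_mod_cast hL
  have hLt : (0 : ℝ) < ((L + 1 - t : ℕ) : ℝ) ^ t := by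
    refine pow_pos ?_ t
    have : 0 < L + 1 - t := by omega
    exact_mod_cast this
  let B1 : Set (G → ℤ) := {u : G → ℤ | IsSgn c u ∧
      L ≤ {χ : G →* ℂˣ | χ ∈ Zr c u ∧ χ * χ ≠ 1}.ncard}
  let B2 : (G →* ℂˣ) → Set (G → ℤ) := fun ψ =>
    {u : G → ℤ | IsSgn c u ∧ 2 * L ≤ (Yr c u ψ).ncard}
  let Ψ : Finset (G →* ℂˣ) := univ.filter (fun ψ => ψ ≠ 1)
  have hsub : {u : G → ℤ | IsSgn c u ∧ ∃ r : G → ℤ, r ≠ 0 ∧ (∀ x, r (c * x) = - r x) ∧
      (∀ s, ∑ x, r x * u (s * x) = 0) ∧ {x | r x ≠ 0}.ncard ≤ 2 * k} ⊆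
      B1 ∪ ⋃ ψ ∈ Ψ, B2 ψ := by
    rintro u ⟨hu, r, hr, hodd, hrel, hsupp⟩
    by_contra hcon
    rw [Set.mem_union, Set.mem_iUnion₂, not_or] at hcon
    push Not at hcon
    obtain ⟨h1, h2⟩ := hcon
    have h1' : {χ : G →* ℂˣ | χ ∈ Zr c u ∧ χ * χ ≠ 1}.ncard < L := by
      by_contra h3
      exact h1 ⟨hu, not_lt.1 h3⟩
    have h2' : ∀ ψ : G →* ℂˣ, ψ ≠ 1 → (Yr c u ψ).ncard < 2 * L := by
      intro ψ hψ
      by_contra h3
      exact h2 ψ (mem_filter.2 ⟨mem_univ _, hψ⟩) ⟨hu, not_lt.1 h3⟩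
    have h3 : ∀ ψ : G →* ℂˣ, ψ ≠ 1 →
        {χ : G →* ℂˣ | χ ∈ Zr c u ∧ χ * ψ ∈ Zr c u}.ncard ≤ 4 * L - 1 := by
      intro ψ hψ
      have h4 : {χ : G →* ℂˣ | χ ∈ Zr c u ∧ χ * ψ ∈ Zr c u} ⊆
          ({χ : G →* ℂˣ | χ ∈ Zr c u ∧ χ * χ ≠ 1} ∪
            {χ : G →* ℂˣ | χ * ψ ∈ Zr c u ∧ (χ * ψ) * (χ * ψ) ≠ 1}) ∪ Yr c u ψ := by
        rintro χ ⟨h5, h6⟩
        by_cases h7 : χ * χ = 1
        · by_cases h8 : (χ * ψ) * (χ * ψ) = 1
          · exact Or.inr ⟨h5, h6, h7, h8⟩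
          · exact Or.inl (Or.inr ⟨h6, h8⟩)
        · exact Or.inl (Or.inl ⟨h5, h7⟩)
      have h5 : {χ : G →* ℂˣ | χ * ψ ∈ Zr c u ∧ (χ * ψ) * (χ * ψ) ≠ 1}.ncard < L := by
        refine lt_of_le_of_lt ?_ h1'
        refine Set.ncard_le_ncard_of_injOn (fun χ => χ * ψ) ?_ (fun χ _ χ' _ h => hcancel h)
          (Set.toFinite _)
        intro χ hχ
        exact hχ
      have h6 := Set.ncard_le_ncard h4 (Set.toFinite _)
      have h7 := Set.ncard_union_le ({χ : G →* ℂˣ | χ ∈ Zr c u ∧ χ * χ ≠ 1} ∪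
            {χ : G →* ℂˣ | χ * ψ ∈ Zr c u ∧ (χ * ψ) * (χ * ψ) ≠ 1}) (Yr c u ψ)
      have h8 := Set.ncard_union_le {χ : G →* ℂˣ | χ ∈ Zr c u ∧ χ * χ ≠ 1}
            {χ : G →* ℂˣ | χ * ψ ∈ Zr c u ∧ (χ * ψ) * (χ * ψ) ≠ 1}
      have h9 := h2' ψ hψ
      omega
    have h4 := card_le_of_spectrum r hr {χ : G →* ℂˣ | χ⁻¹ ∈ Zr c u}
      (fun χ hχ => rel_spectrum u r hodd hrel χ hχ) (4 * L - 1) (by
        intro ψ hψ
        have hψ' : ψ⁻¹ ≠ 1 := fun h => by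
          apply hψ
          ext x
          have h5 := DFunLike.congr_fun h x
          rw [MonoidHom.inv_apply, MonoidHom.one_apply, inv_eq_one] at h5
          rw [h5, MonoidHom.one_apply]
        refine le_trans ?_ (h3 ψ⁻¹ hψ')
        refine Set.ncard_le_ncard_of_injOn (fun χ => χ⁻¹) ?_ (fun χ _ χ' _ h => inv_injective h)
          (Set.toFinite _)
        rintro χ ⟨h5, h6⟩
        refine ⟨h5, ?_⟩
        have h7 : χ⁻¹ * ψ⁻¹ = (χ * ψ)⁻¹ := by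
          ext x
          simp only [MonoidHom.mul_apply, MonoidHom.inv_apply, mul_inv]
        rw [h7]
        exact h6)
    rw [hg] at h4
    have h5 : (1 + (4 * L - 1)) * {x | r x ≠ 0}.ncard ≤ (4 * L) * (2 * k) := by
      have : 1 + (4 * L - 1) = 4 * L := by omega
      rw [this]
      exact Nat.mul_le_mul_left _ hsupp
    have h6 : (4 * L) * (2 * k) = 2 * (4 * L * k) := by ring
    omega
  have hB1 : (B1.ncard : ℝ) ≤ 2 ^ g * (2 * (5 + 4 * C₀) / L) := by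
    have h1 := ncard_nonquads_le hC₀ hc hg0 hg L
    rw [mul_div_assoc', le_div_iff₀ hLR, mul_comm]
    exact h1
  have hB2 : ∀ ψ ∈ Ψ, ((B2 ψ).ncard : ℝ) ≤ 2 ^ g * ((4 ^ t) ^ t / ((L + 1 - t : ℕ) : ℝ) ^ t) := by
    intro ψ hψ
    have h1 := ncard_pairs_le hc hc1 hg0 hg ψ (mem_filter.1 hψ).2 (t := t) hL
    rw [mul_div_assoc', le_div_iff₀ hLt]
    exact h1
  have hfin2 : (⋃ ψ ∈ Ψ, B2 ψ).Finite :=
    finite_sgn fun u hu => by
      obtain ⟨ψ, -, h⟩ := Set.mem_iUnion₂.1 hu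
      exact h.1.1
  have hfin1 : B1.Finite := finite_sgn fun u hu => hu.1.1
  have h1 := Set.ncard_le_ncard hsub (hfin1.union hfin2)
  have h2 := Set.ncard_union_le B1 (⋃ ψ ∈ Ψ, B2 ψ)
  have h3 := Finset.set_ncard_biUnion_le Ψ B2
  have h4 : ((∑ ψ ∈ Ψ, (B2 ψ).ncard : ℕ) : ℝ) ≤
      2 * g * (2 ^ g * ((4 ^ t) ^ t / ((L + 1 - t : ℕ) : ℝ) ^ t)) := by
    push_cast
    refine (Finset.sum_le_sum hB2).trans ?_
    rw [Finset.sum_const, nsmul_eq_mul]
    refine mul_le_mul_of_nonneg_right ?_ (by positivity)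
    have h5 : Ψ.card ≤ 2 * g := by
      refine (Finset.card_le_card (Finset.subset_univ _)).trans ?_
      rw [Finset.card_univ, card_chars, hg]
    exact_mod_cast h5
  have h5 : ({u : G → ℤ | IsSgn c u ∧ ∃ r : G → ℤ, r ≠ 0 ∧ (∀ x, r (c * x) = - r x) ∧
      (∀ s, ∑ x, r x * u (s * x) = 0) ∧ {x | r x ≠ 0}.ncard ≤ 2 * k}.ncard : ℝ) ≤
      B1.ncard + ((∑ ψ ∈ Ψ, (B2 ψ).ncard : ℕ) : ℝ) := by
    exact_mod_cast h1.trans (h2.trans (Nat.add_le_add_left h3 _))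
  refine h5.trans ((add_le_add hB1 h4).trans (le_of_eq ?_))
  ring

end Pool.Agent.Run7.h546.AC
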