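import Mathlib
import Pool.Agent.TH170.TT.Tate
import Pool.Agent.TH170.CM.Family
import Pool.Agent.TH170.CM.Field
import Pool.Agent.TH170.GH.Total
import Pool.Agent.Run7.h546.AC.Mom

/-!
# CM types with a relation of small support
-/

namespace Pool.Agent.Run7.h546.AC

open NumberField Finset Module Pool.Agent.H204R3.CM Pool.Agent.H977R3.CM Pool.Agent.TH170.CM
  Pool.Agent.TH170.LV

/-- The translates of the sign function of the type `Φ` satisfy an antisymmetric linear relation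
whose support has at most `2 k` elements. -/
def SmallRelation {E : Type*} [Field E] [NumberField E] (Φ : Set (E →+* ℂ)) (k : ℕ) : Prop :=
  ∃ b : (E →+* ℂ) → ℤ, b ≠ 0 ∧ (∀ φ, b (ComplexEmbedding.conjugate φ) = -b φ) ∧
    (∀ σ : ℂ ≃+* ℂ, ∑ φ, b φ * sgn Φ ((σ : ℂ →+* ℂ).comp φ) = 0) ∧
    {φ | b φ ≠ 0}.ncard ≤ 2 * k

theorem conj_conj' {E : Type*} [Field E] (φ : E →+* ℂ) :
    ComplexEmbedding.conjugate (ComplexEmbedding.conjugate φ) = φ := by
  ext x
  rw [ComplexEmbedding.conjugate_coe_eq, ComplexEmbedding.conjugate_coe_eq, Complex.conj_conj]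

/-- If there are no relations of small support there are no short exceptional words. -/
theorem levelFree_of_noSmall {ι : Type} [Fintype ι] {E : ι → Type} [∀ i, Field (E i)]
    [∀ i, NumberField (E i)] [∀ i, IsCMField (E i)] {Φ : ∀ i, Set (E i →+* ℂ)}
    (hΦ : ∀ i, IsCMType (Φ i)) (hind : PairwiseIndep E) (k : ℕ)
    (hno : ∀ i, ¬ SmallRelation (Φ i) k) : LevelFree Φ k 0 := by
  classical
  intro n hn B hB hBn a ha
  obtain rfl : B = 0 := by omega
  by_contra hcon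
  push Not at hcon
  obtain ⟨L, _, _, j, hj⟩ := exists_galois E
  let N : (Σ i, (E i →+* ℂ)) → ℤ := fun y => ((Finset.univ.filter (fun l => a l = y)).card : ℤ)
  let cj : (Σ i, (E i →+* ℂ)) → Σ i, (E i →+* ℂ) :=
    fun y => ⟨y.1, ComplexEmbedding.conjugate y.2⟩
  have hcj : ∀ y, cj (cj y) = y := by
    rintro ⟨i, φ⟩
    simp only [cj, conj_conj']
  have hNsum : ∀ f : (Σ i, (E i →+* ℂ)) → ℤ, ∑ y, N y * f y = ∑ l, f (a l) := by
    intro f
    have h3 : ∀ y, N y * f y = ∑ l, if a l = y then f y else 0 := by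
      intro y
      rw [← Finset.sum_filter, Finset.sum_const, nsmul_eq_mul]
    rw [Finset.sum_congr rfl (fun y _ => h3 y), Finset.sum_comm]
    refine Finset.sum_congr rfl fun l _ => ?_
    rw [Finset.sum_ite_eq Finset.univ (a l), if_pos (Finset.mem_univ _)]
  have hNcj : ∀ f : (Σ i, (E i →+* ℂ)) → ℤ, ∑ y, N (cj y) * f y = ∑ l, f (cj (a l)) := by
    intro f
    rw [← hNsum (fun y => f (cj y))]
    refine Finset.sum_nbij' cj cj (fun _ _ => Finset.mem_univ _)
      (fun _ _ => Finset.mem_univ _) (fun y _ => hcj y) (fun y _ => hcj y) (fun y _ => ?_)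
    rw [hcj]
  let s : (ℂ ≃+* ℂ) → (Σ i, (E i →+* ℂ)) → ℤ := fun σ y =>
    if (σ : ℂ →+* ℂ).comp y.2 ∈ Φ y.1 then 1 else -1
  have hrelC : ∀ σ : ℂ ≃+* ℂ, (∃ g : L ≃ₐ[ℚ] L, ∀ x, σ (j x) = j (g x)) →
      ∑ y, (N y - N (cj y)) * s σ y = 0 := by
    rintro σ ⟨g, hg⟩
    have h1 : ∑ l, s σ (a l) = 0 := by
      have := hcon σ
      rw [Nat.cast_zero] at this
      exact abs_nonpos_iff.1 this
    have h2 : ∀ y, s σ (cj y) = - s σ y := by
      rintro ⟨i, ψ⟩
      obtain ⟨φ, rfl⟩ := hj i ψ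
      have h3 : (σ : ℂ →+* ℂ).comp (ComplexEmbedding.conjugate (j.comp φ)) =
          ComplexEmbedding.conjugate ((σ : ℂ →+* ℂ).comp (j.comp φ)) := by
        rw [← comp_cbar]
        have h4 : ∀ φ : E i →+* L, (σ : ℂ →+* ℂ).comp (j.comp φ) = j.comp (g • φ) := by
          intro φ
          ext x
          exact hg (φ x)
        rw [h4, h4, ← comp_cbar]
        rfl
      change (if (σ : ℂ →+* ℂ).comp (ComplexEmbedding.conjugate (j.comp φ)) ∈ Φ i
        then (1 : ℤ) else -1) = - (if (σ : ℂ →+* ℂ).comp (j.comp φ) ∈ Φ i then (1 : ℤ) else -1)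
      rw [h3]
      by_cases h4 : (σ : ℂ →+* ℂ).comp (j.comp φ) ∈ Φ i
      · rw [if_pos h4, if_neg ((hΦ i _).1 h4)]
      · rw [if_neg h4, if_pos (by
          by_contra h5
          exact h4 ((hΦ i _).2 h5)), neg_neg]
    simp only [sub_mul, Finset.sum_sub_distrib]
    rw [hNsum, hNcj]
    simp only [h2, Finset.sum_neg_distrib, h1, neg_zero, sub_zero]
  have hbij : ∀ i, Function.Bijective (fun φ : E i →+* L => j.comp φ) := by
    intro i
    constructor
    · intro φ φ' h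
      refine RingHom.ext fun x => ?_
      exact j.injective (RingHom.congr_fun h x)
    · exact hj i
  let b : ∀ i, (E i →+* ℂ) → ℤ := fun i ψ => N ⟨i, ψ⟩ - N (cj ⟨i, ψ⟩)
  have hrelL : ∀ (i : ι) (g : L ≃ₐ[ℚ] L), ∑ x : E i →+* L, b i (j.comp x) *
      (if j.comp (g • x) ∈ Φ i then (1 : ℤ) else -1) = 0 := by
    intro i g
    refine indep (G := L ≃ₐ[ℚ] L) (fun i => E i →+* L) (fun i => cbar)
      (fun i φ => if j.comp φ ∈ Φ i then (1 : ℤ) else -1) (fun i φ => sign_cbar (hΦ i) j φ)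
      (fun g i φ => rfl) ?_ (fun i x => b i (j.comp x)) (fun g => ?_) i g
    · intro i i' hii φ ψ
      obtain ⟨σ, hσ1, hσ2⟩ := hind i i' hii (j.comp φ) (j.comp ψ)
      obtain ⟨g, hg⟩ := exists_gal j σ
      refine ⟨g, ?_, ?_⟩
      · refine RingHom.ext fun x => ?_
        apply j.injective
        rw [emb_smul_apply, ← hg]
        exact hσ1 x
      · refine RingHom.ext fun x => ?_
        apply j.injective
        rw [emb_smul_apply, ← hg]
        have h1 := RingHom.congr_fun (comp_cbar j ψ) x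
        rw [ComplexEmbedding.conjugate_coe_eq] at h1
        exact (hσ2 x).trans h1.symm
    · obtain ⟨σ, hσ⟩ := Pool.Agent.H977R3.CM.exists_aut j (g : L ≃+* L)
      rw [← hrelC σ ⟨g, hσ⟩, Fintype.sum_sigma]
      refine Finset.sum_congr rfl fun i _ => ?_
      refine Fintype.sum_bijective _ (hbij i) _ _ fun φ => ?_
      have h4 : (σ : ℂ →+* ℂ).comp (j.comp φ) = j.comp (g • φ) := by
        ext x
        exact hσ (φ x)
      simp only [s, b]
      rw [h4]
  have hrel : ∀ (i : ι) (σ : ℂ ≃+* ℂ), ∑ ψ, b i ψ * sgn (Φ i) ((σ : ℂ →+* ℂ).comp ψ) = 0 := by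
    intro i σ
    obtain ⟨g, hg⟩ := exists_gal j σ
    rw [← hrelL i g]
    symm
    refine Fintype.sum_bijective _ (hbij i) _ _ fun φ => ?_
    have h4 : (σ : ℂ →+* ℂ).comp (j.comp φ) = j.comp (g • φ) := by
      ext x
      exact hg (φ x)
    rw [sgn, h4]
  have l₀ : Fin n := ⟨0, by omega⟩
  apply hno (a l₀).1
  refine ⟨b (a l₀).1, ?_, ?_, hrel _, ?_⟩
  · intro h0
    have h1 : N (a l₀) - N (cj (a l₀)) = 0 := congrFun h0 (a l₀).2
    have h3 : N (cj (a l₀)) = 0 := by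
      have h4 : Finset.univ.filter (fun l => a l = cj (a l₀)) = ∅ := by
        rw [Finset.filter_eq_empty_iff]
        intro l _ hl
        exact ha l l₀ hl
      simp only [N, h4, Finset.card_empty, Nat.cast_zero]
    have h4 : 0 < N (a l₀) := by
      have h5 : 0 < (Finset.univ.filter (fun l => a l = a l₀)).card :=
        Finset.card_pos.2 ⟨l₀, Finset.mem_filter.2 ⟨Finset.mem_univ _, rfl⟩⟩
      exact Nat.cast_pos.2 h5
    omega
  · intro φ
    simp only [b, cj, conj_conj']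
    ring
  · have hNz : ∀ y, N y ≠ 0 → y ∈ Set.range a := by
      intro y hy
      by_contra h
      apply hy
      have h4 : Finset.univ.filter (fun l => a l = y) = ∅ := by
        rw [Finset.filter_eq_empty_iff]
        intro l _ hl
        exact h ⟨l, hl⟩
      simp only [N, h4, Finset.card_empty, Nat.cast_zero]
    have hran : (Set.range a).ncard ≤ n := by
      have h1 := Set.ncard_image_le (f := a) (s := Set.univ) (Set.toFinite _)
      rwa [Set.image_univ, Set.ncard_univ, Nat.card_eq_fintype_card, Fintype.card_fin] at h1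
    set i := (a l₀).1
    have hsub : {φ | b i φ ≠ 0} ⊆
        {φ : E i →+* ℂ | (⟨i, φ⟩ : Σ i, (E i →+* ℂ)) ∈ Set.range a} ∪
        {φ : E i →+* ℂ | cj ⟨i, φ⟩ ∈ Set.range a} := by
      intro φ hφ
      by_cases h1 : N ⟨i, φ⟩ = 0
      · refine Or.inr (hNz _ fun h2 => hφ ?_)
        simp only [b]
        rw [h1, h2, sub_zero]
      · exact Or.inl (hNz _ h1)
    have h1 : {φ : E i →+* ℂ | (⟨i, φ⟩ : Σ i, (E i →+* ℂ)) ∈ Set.range a}.ncard ≤ n := by
      refine le_trans ?_ hran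
      refine Set.ncard_le_ncard_of_injOn (fun φ => (⟨i, φ⟩ : Σ i, (E i →+* ℂ))) (fun φ hφ => hφ) ?_
        (Set.toFinite _)
      intro φ _ φ' _ h
      exact eq_of_heq (Sigma.mk.inj h).2
    have h2 : {φ : E i →+* ℂ | cj ⟨i, φ⟩ ∈ Set.range a}.ncard ≤ n := by
      refine le_trans ?_ hran
      refine Set.ncard_le_ncard_of_injOn (fun φ => cj ⟨i, φ⟩) (fun φ hφ => hφ) ?_
        (Set.toFinite _)
      intro φ _ φ' _ h
      have h3 : cj (cj ⟨i, φ⟩) = cj (cj ⟨i, φ'⟩) := congrArg cj h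
      rw [hcj, hcj] at h3
      exact eq_of_heq (Sigma.mk.inj h3).2
    have h3 := Set.ncard_le_ncard hsub (Set.toFinite _)
    have h4 := Set.ncard_union_le
      {φ : E i →+* ℂ | (⟨i, φ⟩ : Σ i, (E i →+* ℂ)) ∈ Set.range a}
      {φ : E i →+* ℂ | cj ⟨i, φ⟩ ∈ Set.range a}
    omega

open scoped IsMulCommutative in
/-- Few CM types of an abelian CM field have relations of small support. -/
theorem ncard_smallRelation_le {C₀ : ℝ} (hC₀ : ∀ m : ℕ, (m : ℝ) ^ 2 / 2 ^ m.totient ≤ C₀)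
    (E : Type) [Field E] [NumberField E] [IsCMField E] [IsAbelianGalois ℚ E] {g : ℕ}
    (hg : finrank ℚ E = 2 * g) (t L k : ℕ) (ht : t ≤ L) (hL : 0 < L) (hk : 4 * L * k < g) :
    ({Φ : Set (E →+* ℂ) | IsCMType Φ ∧ SmallRelation Φ k}.ncard : ℝ) ≤
      2 ^ g * (2 * (5 + 4 * C₀) / L + 2 * g * (4 ^ t) ^ t / ((L + 1 - t : ℕ) : ℝ) ^ t) := by
  classical
  obtain ⟨φ₀⟩ : Nonempty (E →+* ℂ) := inferInstance
  have hcard : Fintype.card (E ≃ₐ[ℚ] E) = 2 * g := by
    rw [← hg, ← Nat.card_eq_fintype_card]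
    exact IsGalois.card_aut_eq_finrank ℚ E
  have hg0 : 0 < g := by omega
  have hc1 : conjQ E ≠ 1 := by
    intro h
    apply IsCMField.complexConj_ne_one E
    ext x
    exact DFunLike.congr_fun h x
  refine le_trans ?_ (ncard_bad (G := E ≃ₐ[ℚ] E) hC₀ conjQ_mul hc1 hg0 hcard t L k ht hL hk)
  rw [Nat.cast_le]
  refine Set.ncard_le_ncard_of_injOn (usgn φ₀) ?_ ?_ (finite_sgn fun u hu => hu.1.1)
  · rintro Φ ⟨hΦ, b, hb, hodd, hrel, hsupp⟩
    refine ⟨isSgn_usgn φ₀ hΦ, fun g => b (φ₀.comp (g : E →+* E)), ?_, ?_, ?_, ?_⟩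
    · intro h
      apply hb
      funext φ
      obtain ⟨g, rfl⟩ := (emb_bijective φ₀).2 φ
      exact congrFun h g
    · intro g
      change b (φ₀.comp ((conjQ E * g : E ≃ₐ[ℚ] E) : E →+* E)) = - b (φ₀.comp (g : E →+* E))
      rw [comp_conjQ, hodd]
    · intro s
      obtain ⟨σ, hσ⟩ := Pool.Agent.H977R3.CM.exists_aut φ₀ (s : E ≃+* E)
      rw [← hrel σ]
      refine Fintype.sum_bijective _ (emb_bijective φ₀) _ _ fun g => ?_
      rw [usgn]
      congr 2
      ext x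
      exact (hσ (g x)).symm
    · refine le_trans ?_ hsupp
      exact Set.ncard_le_ncard_of_injOn (fun g : E ≃ₐ[ℚ] E => φ₀.comp (g : E →+* E))
        (fun g hg => hg) (fun g _ g' _ h => (emb_bijective φ₀).1 h) (Set.toFinite _)
  · intro Φ _ Φ' _ h
    exact usgn_inj φ₀ h

end Pool.Agent.Run7.h546.AC
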