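import Mathlib
import Pool.Agent.Run7.h546.AC.Asy
import Pool.Agent.Run7.h546.AC.Fld

/-!
# Families of CM types of abelian CM fields without short exceptional words
-/

namespace Pool.Agent.Run7.h546.AC

open NumberField Finset Module Pool.Agent.H204R3.CM Pool.Agent.H977R3.CM Pool.Agent.TH170.CM
  Pool.Agent.TH170.LV

theorem ncard_cmTypes (E : Type) [Field E] [NumberField E] [IsCMField E] {n : ℕ}
    (hn : finrank ℚ E = 2 * n) : {Φ : Set (E →+* ℂ) | IsCMType Φ}.ncard = 2 ^ n := by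
  have h1 := Pool.Agent.TH170.GH.ncard_types (fun _ : Unit => E) n (by
    rw [Finset.sum_const, Finset.card_univ, Fintype.card_unit, one_smul, hn])
  rw [← h1]
  refine (Set.ncard_congr (fun (Φ : Unit → Set (E →+* ℂ)) _ => Φ ()) ?_ ?_ ?_).symm
  · intro Φ hΦ
    exact hΦ ()
  · intro Φ Φ' _ _ h
    funext i
    exact h
  · intro Φ hΦ
    exact ⟨fun _ => Φ, fun _ => hΦ, rfl⟩

theorem exists_const' : ∃ C₀ : ℝ, 0 ≤ C₀ ∧ ∀ m : ℕ, (m : ℝ) ^ 2 / 2 ^ m.totient ≤ C₀ := by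
  obtain ⟨C, hC0, hC⟩ := exists_sum
  refine ⟨C, hC0, fun m => le_trans ?_ (hC (m + 1))⟩
  exact Finset.single_le_sum (f := fun m : ℕ => (m : ℝ) ^ 2 / 2 ^ m.totient)
    (fun m _ => by positivity) (Finset.mem_range.2 (Nat.lt_succ_self m))

/-- **The number of the CM types of an abelian CM field with a relation of small support.** -/
theorem exists_rate (δ : ℝ) (hδ : 0 < δ) : ∃ C : ℝ, 0 ≤ C ∧ ∀ (E : Type) [Field E]
    [NumberField E] [IsCMField E] [IsAbelianGalois ℚ E] (n : ℕ), finrank ℚ E = 2 * n →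
    ∀ k : ℕ, (k : ℝ) ≤ (n : ℝ) ^ (1 - δ) →
      ({Φ : Set (E →+* ℂ) | IsCMType Φ ∧ SmallRelation Φ k}.ncard : ℝ) ≤
        2 ^ n * (C * (n : ℝ) ^ (-δ)) := by
  obtain ⟨C₀, hC0, hC₀⟩ := exists_const'
  obtain ⟨C, hC, T, hT⟩ := asym δ hδ C₀ hC0
  refine ⟨C, hC, fun E _ _ _ _ n hn k hk => ?_⟩
  have hn0 : 0 < n := by
    have : 0 < finrank ℚ E := finrank_pos
    omega
  by_cases h1 : C * (n : ℝ) ^ (-δ) < 1
  · obtain ⟨L, hTL, hL0, hLk, hb⟩ := hT n hn0 h1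
    exact (ncard_smallRelation_le hC₀ E hn T L k hTL hL0 (hLk k hk)).trans
      (mul_le_mul_of_nonneg_left hb (by positivity))
  · have h2 : ({Φ : Set (E →+* ℂ) | IsCMType Φ ∧ SmallRelation Φ k}.ncard : ℝ) ≤ 2 ^ n := by
      have h3 := Set.ncard_le_ncard (s := {Φ : Set (E →+* ℂ) | IsCMType Φ ∧ SmallRelation Φ k})
        (t := {Φ : Set (E →+* ℂ) | IsCMType Φ}) (fun Φ hΦ => hΦ.1) (Set.toFinite _)
      rw [ncard_cmTypes E hn] at h3
      exact_mod_cast h3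
    refine h2.trans ?_
    have h3 : (1 : ℝ) ≤ C * (n : ℝ) ^ (-δ) := not_lt.1 h1
    calc (2 : ℝ) ^ n = 2 ^ n * 1 := (mul_one _).symm
      _ ≤ _ := mul_le_mul_of_nonneg_left h3 (by positivity)

/-- The number of the families whose member `i` is in a small set. -/
theorem ncard_family_le {ι : Type} [Fintype ι] {X : ι → Type*} [∀ i, Finite (X i)]
    (S : ∀ i, Set (X i)) (n : ι → ℕ) (hS : ∀ i, (S i).ncard = 2 ^ n i) (i : ι) (B : Set (X i))
    (e : ℝ) (hB : (B.ncard : ℝ) ≤ 2 ^ n i * e) :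
    ({Φ : ∀ i, X i | (∀ j, Φ j ∈ S j) ∧ Φ i ∈ B}.ncard : ℝ) ≤ 2 ^ (∑ i, n i) * e := by
  classical
  have : ∀ i, Fintype (X i) := fun i => Fintype.ofFinite _
  let F : ∀ j, Finset (X j) := fun j => (S j).toFinset
  have hF : ∀ j, (F j).card = 2 ^ n j := fun j => by
    rw [← hS j, Set.ncard_eq_toFinset_card']
  have hB' : B.toFinset.card = B.ncard := (Set.ncard_eq_toFinset_card' B).symm
  have h1 : {Φ : ∀ i, X i | (∀ j, Φ j ∈ S j) ∧ Φ i ∈ B}.ncard ≤
      (Fintype.piFinset (Function.update F i B.toFinset)).card := by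
    rw [← Set.ncard_coe_finset]
    refine Set.ncard_le_ncard ?_ (Set.toFinite _)
    rintro Φ ⟨h1, h2⟩
    rw [Finset.mem_coe, Fintype.mem_piFinset]
    intro j
    by_cases h : j = i
    · subst h
      rw [Function.update_self, Set.mem_toFinset]
      exact h2
    · rw [Function.update_of_ne h, Set.mem_toFinset]
      exact h1 j
  have h2 : (Fintype.piFinset (Function.update F i B.toFinset)).card =
      B.ncard * ∏ j ∈ Finset.univ \ {i}, 2 ^ n j := by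
    rw [Fintype.card_piFinset]
    have h3 : (fun j => (Function.update F i B.toFinset j).card) =
        Function.update (fun j => 2 ^ n j) i B.ncard := by
      funext j
      by_cases h : j = i
      · subst h
        rw [Function.update_self, Function.update_self, hB']
      · rw [Function.update_of_ne h, Function.update_of_ne h, hF]
    rw [h3, Finset.prod_update_of_mem (Finset.mem_univ i)]
  have h3 : (2 : ℝ) ^ (∑ i, n i) = 2 ^ n i * ∏ j ∈ Finset.univ \ {i}, (2 : ℝ) ^ n j := by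
    rw [← Finset.prod_pow_eq_pow_sum]
    exact Finset.prod_eq_mul_prod_sdiff_singleton_of_mem (Finset.mem_univ i) _
  calc ({Φ : ∀ i, X i | (∀ j, Φ j ∈ S j) ∧ Φ i ∈ B}.ncard : ℝ)
      ≤ ((B.ncard * ∏ j ∈ Finset.univ \ {i}, 2 ^ n j : ℕ) : ℝ) := by
        rw [← h2]
        exact_mod_cast h1
    _ = B.ncard * ∏ j ∈ Finset.univ \ {i}, (2 : ℝ) ^ n j := by push_cast; rfl
    _ ≤ (2 ^ n i * e) * ∏ j ∈ Finset.univ \ {i}, (2 : ℝ) ^ n j :=
        mul_le_mul_of_nonneg_right hB (Finset.prod_nonneg fun j _ => by positivity)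
    _ = _ := by
        rw [h3]
        ring

/-- A property that holds for the families of types without exceptional words of length at most `k`
fails for few families of types of pairwise independent abelian CM fields. -/
theorem exists_family_rate (δ : ℝ) (hδ : 0 < δ) (hδ1 : δ < 1)
    (P : ∀ {ι : Type} {E : ι → Type} [∀ i, Field (E i)] [∀ i, NumberField (E i)]
      [∀ i, IsCMField (E i)], (∀ i, Set (E i →+* ℂ)) → ℕ → Prop)
    (hP : ∀ {ι : Type} [Fintype ι] {E : ι → Type} [∀ i, Field (E i)] [∀ i, NumberField (E i)]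
      [∀ i, IsCMField (E i)] (Φ : ∀ i, Set (E i →+* ℂ)) (k : ℕ),
      (∀ i, IsCMType (Φ i)) → LevelFree Φ k 0 → P Φ k) :
    ∃ C : ℝ, ∀ {ι : Type} [Fintype ι] (E : ι → Type) [∀ i, Field (E i)]
      [∀ i, NumberField (E i)] [∀ i, IsCMField (E i)] [∀ i, IsAbelianGalois ℚ (E i)]
      (g : ℕ) (n : ι → ℕ), PairwiseIndep E → (∀ i, finrank ℚ (E i) = 2 * n i) →
      0 < g → (∀ i, g ≤ n i) →
      {Φ : ∀ i, Set (E i →+* ℂ) | ∀ i, IsCMType (Φ i)}.ncard = 2 ^ (∑ i, n i) ∧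
      ({Φ : ∀ i, Set (E i →+* ℂ) | (∀ i, IsCMType (Φ i)) ∧
        ¬ P Φ ⌊(g : ℝ) ^ (1 - δ)⌋₊}.ncard : ℝ) ≤
        2 ^ (∑ i, n i) * (Fintype.card ι * (C * (g : ℝ) ^ (-δ))) := by
  classical
  obtain ⟨C, hC, hrate⟩ := exists_rate δ hδ
  refine ⟨C, fun {ι} _ E _ _ _ _ g n hind hn hg hgn => ⟨?_, ?_⟩⟩
  · refine Pool.Agent.TH170.GH.ncard_types E _ ?_
    rw [Finset.sum_congr rfl fun i _ => hn i, Finset.mul_sum]
  · have hgR : (0 : ℝ) < g := by exact_mod_cast hg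
    set k : ℕ := ⌊(g : ℝ) ^ (1 - δ)⌋₊ with hk
    have hkle : (k : ℝ) ≤ (g : ℝ) ^ (1 - δ) := Nat.floor_le (by positivity)
    let B : ∀ i, Set (Set (E i →+* ℂ)) := fun i => {Φ | IsCMType Φ ∧ SmallRelation Φ k}
    have hB : ∀ i, ((B i).ncard : ℝ) ≤ 2 ^ n i * (C * (g : ℝ) ^ (-δ)) := by
      intro i
      have hgi : (g : ℝ) ≤ n i := by exact_mod_cast hgn i
      have h1 := hrate (E i) (n i) (hn i) k (hkle.trans
        (Real.rpow_le_rpow hgR.le hgi (by linarith)))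
      refine h1.trans (mul_le_mul_of_nonneg_left (mul_le_mul_of_nonneg_left ?_ hC) (by positivity))
      rw [Real.rpow_neg hgR.le, Real.rpow_neg (by linarith)]
      exact inv_anti₀ (by positivity) (Real.rpow_le_rpow hgR.le hgi hδ.le)
    have hsub : {Φ : ∀ i, Set (E i →+* ℂ) | (∀ i, IsCMType (Φ i)) ∧ ¬ P Φ k} ⊆
        ⋃ i ∈ (Finset.univ : Finset ι), {Φ : ∀ i, Set (E i →+* ℂ) |
          (∀ j, Φ j ∈ {Ψ : Set (E j →+* ℂ) | IsCMType Ψ}) ∧ Φ i ∈ B i} := by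
      rintro Φ ⟨hΦ, hnot⟩
      by_contra hcon
      apply hnot
      refine hP Φ k hΦ (levelFree_of_noSmall hΦ hind k fun i hi => hcon ?_)
      rw [Set.mem_iUnion₂]
      exact ⟨i, Finset.mem_univ i, hΦ, hΦ i, hi⟩
    have h1 := (Set.ncard_le_ncard hsub (Set.toFinite _)).trans
      (Finset.set_ncard_biUnion_le _ _)
    have h2 : ∀ i ∈ (Finset.univ : Finset ι), ({Φ : ∀ i, Set (E i →+* ℂ) |
          (∀ j, Φ j ∈ {Ψ : Set (E j →+* ℂ) | IsCMType Ψ}) ∧ Φ i ∈ B i}.ncard : ℝ) ≤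
        2 ^ (∑ i, n i) * (C * (g : ℝ) ^ (-δ)) := fun i _ =>
      ncard_family_le (X := fun i => Set (E i →+* ℂ)) (fun j => {Ψ | IsCMType Ψ}) n
        (fun j => ncard_cmTypes (E j) (hn j)) i (B i) _ (hB i)
    calc _ ≤ ((∑ i ∈ (Finset.univ : Finset ι), {Φ : ∀ i, Set (E i →+* ℂ) |
          (∀ j, Φ j ∈ {Ψ : Set (E j →+* ℂ) | IsCMType Ψ}) ∧ Φ i ∈ B i}.ncard : ℕ) : ℝ) :=
          Nat.cast_le.2 h1
      _ = ∑ i ∈ (Finset.univ : Finset ι), ({Φ : ∀ i, Set (E i →+* ℂ) |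
          (∀ j, Φ j ∈ {Ψ : Set (E j →+* ℂ) | IsCMType Ψ}) ∧ Φ i ∈ B i}.ncard : ℝ) := by
          rw [Nat.cast_sum]
      _ ≤ ∑ i ∈ (Finset.univ : Finset ι), 2 ^ (∑ i, n i) * (C * (g : ℝ) ^ (-δ)) :=
          Finset.sum_le_sum h2
      _ = _ := by
          rw [Finset.sum_const, Finset.card_univ, nsmul_eq_mul]
          ring

end Pool.Agent.Run7.h546.AC
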